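import Mathlib

/-!
# Thin sets representing all integers of an interval by a linear form
-/

set_option autoImplicit false

namespace Pool.Agent.H82.SZ

open Finset

/-- the integers whose digits (base `q`, `n` digits) at the positions not congruent to `i` modulo
`g` are zero -/
def low (g q i : ℕ) : ℕ → Finset ℤ
  | 0 => {0}
  | n + 1 => if n % g = i then
      (low g q i n ×ˢ Finset.range q).image fun t => t.1 + (q : ℤ) ^ n * (t.2 : ℤ)
    else low g q i n

theorem low_bound {g q i : ℕ} (hq : 1 ≤ q) (n : ℕ) :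
    ∀ t ∈ low g q i n, 0 ≤ t ∧ t < (q : ℤ) ^ n := by
  have hqz : (1 : ℤ) ≤ q := by exact_mod_cast hq
  induction n with
  | zero =>
    intro t ht
    simp only [low, Finset.mem_singleton] at ht
    subst ht
    simp
  | succ n ih =>
    intro t ht
    have hpow : (1 : ℤ) ≤ (q : ℤ) ^ n := one_le_pow₀ hqz
    rw [low] at ht
    split_ifs at ht with h
    · obtain ⟨⟨a, e⟩, hae, rfl⟩ := Finset.mem_image.mp ht
      rw [Finset.mem_product, Finset.mem_range] at hae
      obtain ⟨ha, he⟩ := hae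
      obtain ⟨h1, h2⟩ := ih a ha
      have he' : (e : ℤ) + 1 ≤ q := by exact_mod_cast he
      simp only
      constructor
      · positivity
      · rw [pow_succ]
        nlinarith
    · obtain ⟨h1, h2⟩ := ih t ht
      refine ⟨h1, h2.trans_le ?_⟩
      rw [pow_succ]
      nlinarith

theorem low_card {g q i : ℕ} (hg : i < g) (hq : 1 ≤ q) (n : ℕ) :
    (low g q i n).card ≤ q ^ ((n + g - 1 - i) / g) := by
  have hg0 : 0 < g := by omega
  induction n with
  | zero =>
    rw [low, Finset.card_singleton]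
    exact Nat.one_le_pow _ _ hq
  | succ n ih =>
    rw [low]
    split_ifs with h
    · refine Finset.card_image_le.trans ?_
      rw [Finset.card_product, Finset.card_range]
      have h1 : n = i + g * (n / g) := by
        have := Nat.div_add_mod n g
        omega
      have h2 : (n + g - 1 - i) / g = n / g := by
        have h3 : n + g - 1 - i = (g - 1) + g * (n / g) := by omega
        rw [h3, Nat.add_mul_div_left _ _ hg0, Nat.div_eq_of_lt (by omega)]
        omega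
      have h4 : (n + 1 + g - 1 - i) / g = n / g + 1 := by
        have h3 : n + 1 + g - 1 - i = g + g * (n / g) := by omega
        rw [h3, Nat.add_mul_div_left _ _ hg0, Nat.div_self hg0]
        omega
      rw [h2] at ih
      rw [h4, pow_succ]
      exact Nat.mul_le_mul_right _ ih
    · refine ih.trans (Nat.pow_le_pow_right hq (Nat.div_le_div_right ?_))
      omega

theorem exists_digit {u : ℤ} {q : ℕ} (hq : 1 ≤ q) (hu : IsCoprime (q : ℤ) u) (z : ℤ) :
    ∃ e : ℕ, e < q ∧ ∃ z₁ : ℤ, z = u * e + q * z₁ := by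
  obtain ⟨a, b, hab⟩ := hu
  have hqz : (0 : ℤ) < q := by exact_mod_cast hq
  have h0 : 0 ≤ (z * b) % q := Int.emod_nonneg _ hqz.ne'
  have h1 : (z * b) % q < q := Int.emod_lt_of_pos _ hqz
  obtain ⟨e, he⟩ := Int.eq_ofNat_of_zero_le h0
  refine ⟨e, ?_, ?_⟩
  · rw [he] at h1
    exact_mod_cast h1
  · have h2 : (e : ℤ) = z * b - q * (z * b / q) := by
      rw [← he]
      have := Int.emod_add_mul_ediv (z * b) q
      linarith
    refine ⟨z * a + u * (z * b / q), ?_⟩
    rw [h2]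
    linear_combination (-z) * hab

theorem digits {g q : ℕ} (hg : 0 < g) (hq : 1 ≤ q) {u : Fin g → ℤ} {M : ℤ}
    (hM : ∀ i, |u i| ≤ M) (hu : ∀ i, IsCoprime (q : ℤ) (u i)) (n : ℕ) :
    ∀ V z : ℤ, |z| ≤ (q : ℤ) ^ n * V + 2 * M →
      ∃ (τ : Fin g → ℤ) (z' : ℤ), (∀ i : Fin g, τ i ∈ low g q i n) ∧
        z = ∑ i, u i * τ i + (q : ℤ) ^ n * z' ∧ |z'| ≤ V + 2 * M := by
  have hqz : (1 : ℤ) ≤ q := by exact_mod_cast hq
  induction n with
  | zero =>
    intro V z hz
    refine ⟨fun _ => 0, z, fun i => by simp [low], by simp, ?_⟩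
    simpa using hz
  | succ n ih =>
    intro V z hz
    obtain ⟨τ, z', hτ, hz', hb⟩ := ih (q * V) z (by
      rw [pow_succ] at hz
      linarith)
    set i₀ : Fin g := ⟨n % g, Nat.mod_lt _ hg⟩ with hi₀
    obtain ⟨e, he, z₁, hz₁⟩ := exists_digit hq (hu i₀) z'
    refine ⟨fun i => τ i + if i = i₀ then (q : ℤ) ^ n * e else 0, z₁, ?_, ?_, ?_⟩
    · intro i
      show (τ i + if i = i₀ then (q : ℤ) ^ n * e else 0) ∈ low g q i (n + 1)
      rw [low]
      by_cases hi : i = i₀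
      · have h1 : n % g = (i : ℕ) := by rw [hi, hi₀]
        rw [if_pos hi, if_pos h1]
        refine Finset.mem_image.mpr ⟨(τ i, e), ?_, rfl⟩
        rw [Finset.mem_product, Finset.mem_range]
        exact ⟨hτ i, he⟩
      · have h1 : ¬ (n % g = (i : ℕ)) := by
          intro h
          exact hi (Fin.ext (by rw [hi₀]; exact h.symm))
        rw [if_neg hi, if_neg h1, add_zero]
        exact hτ i
    · have h1 : ∑ i, u i * (τ i + if i = i₀ then (q : ℤ) ^ n * e else 0) =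
          ∑ i, u i * τ i + u i₀ * ((q : ℤ) ^ n * e) := by
        simp only [mul_add, Finset.sum_add_distrib]
        congr 1
        rw [Finset.sum_eq_single i₀]
        · rw [if_pos rfl]
        · intro i _ hi
          rw [if_neg hi, mul_zero]
        · intro h
          exact absurd (Finset.mem_univ _) h
      rw [h1, hz', hz₁, pow_succ]
      ring
    · have h1 : (q : ℤ) * |z₁| ≤ q * (V + 2 * M) := by
        have h2 : (q : ℤ) * z₁ = z' - u i₀ * e := by linarith
        have h3 : (q : ℤ) * |z₁| = |z' - u i₀ * e| := by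
          rw [← h2, abs_mul, abs_of_nonneg (by linarith : (0 : ℤ) ≤ q)]
        rw [h3]
        have he' : (e : ℤ) + 1 ≤ q := by exact_mod_cast he
        have h4 : |u i₀ * e| ≤ M * e := by
          rw [abs_mul, Nat.abs_cast]
          exact mul_le_mul_of_nonneg_right (hM i₀) (by positivity)
        have h5 := abs_sub z' (u i₀ * e)
        have hM0 : 0 ≤ M := (abs_nonneg _).trans (hM i₀)
        have h6 : M * e ≤ M * (q - 1) := mul_le_mul_of_nonneg_left (by linarith) hM0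
        nlinarith
      exact le_of_mul_le_mul_left h1 (by linarith)

/-- the top digits -/
theorem top {g : ℕ} {u c : Fin g → ℤ} (hc : ∑ i, u i * c i = 1) {S K : ℤ}
    (hS : ∑ i, |u i| = S) (hS2 : 2 ≤ S) (hK : ∀ i, S * |c i| ≤ K) (z : ℤ) :
    ∃ e : Fin g → ℤ, ∑ i, u i * e i = z ∧ ∀ i, 2 * |e i| ≤ |z| + 2 + 2 * K := by
  have hS0 : 0 < S := by linarith
  set k := z / S with hk
  set ρ := z % S with hρ
  have h0 : 0 ≤ ρ := Int.emod_nonneg _ hS0.ne'
  have h1 : ρ < S := Int.emod_lt_of_pos _ hS0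
  have h2 : ρ + S * k = z := Int.emod_add_mul_ediv z S
  refine ⟨fun i => Int.sign (u i) * k + ρ * c i, ?_, ?_⟩
  · have h3 : ∀ i, u i * (Int.sign (u i) * k + ρ * c i) = |u i| * k + ρ * (u i * c i) := by
      intro i
      have : u i * Int.sign (u i) = |u i| := by
        rw [mul_comm]
        exact Int.sign_mul_self_eq_abs (u i)
      linear_combination k * this
    rw [Finset.sum_congr rfl fun i _ => h3 i, Finset.sum_add_distrib, ← Finset.sum_mul,
      ← Finset.mul_sum, hS, hc]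
    linarith
  · intro i
    have h4 : |Int.sign (u i) * k + ρ * c i| ≤ |k| + K := by
      refine (abs_add_le _ _).trans ?_
      have h5 : |Int.sign (u i) * k| ≤ |k| := by
        rw [abs_mul]
        have h6 : |Int.sign (u i)| ≤ 1 := by
          rcases lt_trichotomy (u i) 0 with h | h | h
          · rw [Int.sign_eq_neg_one_of_neg h]; norm_num
          · rw [h]; norm_num
          · rw [Int.sign_eq_one_of_pos h]; norm_num
        nlinarith [abs_nonneg k]
      have h7 : |ρ * c i| ≤ K := by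
        rw [abs_mul, abs_of_nonneg h0]
        exact (mul_le_mul_of_nonneg_right h1.le (abs_nonneg _)).trans (hK i)
      linarith
    have h8 : 2 * |k| ≤ |z| + 2 := by
      rcases le_total 0 k with h | h
      · rw [abs_of_nonneg h]
        have : z ≤ |z| := le_abs_self z
        nlinarith
      · rw [abs_of_nonpos h]
        have h9 : -z ≤ |z| := neg_le_abs z
        rcases h.lt_or_eq with h10 | h10
        · have h11 : 0 ≤ (S - 2) * (-k - 1) := mul_nonneg (by linarith) (by linarith)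
          nlinarith
        · rw [h10]
          have := abs_nonneg z
          linarith
    simp only
    linarith

theorem coprime_q {g : ℕ} (u : Fin g → ℤ) (i : Fin g) :
    IsCoprime (((∏ j, (u j).natAbs) * 2 + 1 : ℕ) : ℤ) (u i) := by
  have h1 : (u i).natAbs ∣ ∏ j, (u j).natAbs := Finset.dvd_prod_of_mem _ (Finset.mem_univ i)
  obtain ⟨w, hw⟩ := h1
  have h2 : u i ∣ ((∏ j, (u j).natAbs : ℕ) : ℤ) := by
    rw [← Int.natAbs_dvd_natAbs, Int.natAbs_natCast, hw]
    exact Dvd.intro _ rfl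
  obtain ⟨v, hv⟩ := h2
  refine ⟨1, -(v * 2), ?_⟩
  push_cast
  push_cast at hv
  rw [hv]
  ring

/-- the numbers used for the `i`-th variable -/
noncomputable def thinSet (g q n : ℕ) (E : ℤ) : Finset ℤ :=
  Finset.univ.biUnion fun i : Fin g =>
    (low g q i n ×ˢ Finset.Icc (-E) E).image fun t => t.1 + (q : ℤ) ^ n * t.2

theorem thinSet_card {g q ℓ : ℕ} {E : ℤ} (hq : 1 ≤ q) (hE : 0 ≤ E) :
    ((thinSet g q (g * ℓ) E).card : ℤ) ≤ g * ((q : ℤ) ^ ℓ * (2 * E + 1)) := by
  have h1 : (thinSet g q (g * ℓ) E).card ≤ g * (q ^ ℓ * (2 * E + 1).toNat) := by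
    refine Finset.card_biUnion_le.trans ?_
    have h2 : ∀ i ∈ (Finset.univ : Finset (Fin g)),
        ((low g q i (g * ℓ) ×ˢ Finset.Icc (-E) E).image
          fun t => t.1 + (q : ℤ) ^ (g * ℓ) * t.2).card ≤ q ^ ℓ * (2 * E + 1).toNat := by
      intro i _
      refine Finset.card_image_le.trans ?_
      rw [Finset.card_product, Int.card_Icc]
      have h3 := low_card (q := q) i.isLt hq (g * ℓ)
      have hg0 : 0 < g := i.pos
      have h4 : (g * ℓ + g - 1 - i) / g = ℓ := by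
        have h5 : g * ℓ + g - 1 - i = (g - 1 - i) + g * ℓ := by
          have := i.isLt
          omega
        rw [h5, Nat.add_mul_div_left _ _ hg0, Nat.div_eq_of_lt (by omega)]
        omega
      rw [h4] at h3
      have h6 : (E + 1 - -E).toNat = (2 * E + 1).toNat := by
        congr 1
        ring
      rw [h6]
      exact Nat.mul_le_mul_right _ h3
    refine (Finset.sum_le_sum h2).trans ?_
    rw [Finset.sum_const, Finset.card_univ, Fintype.card_fin, smul_eq_mul]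
  have h2 : ((2 * E + 1).toNat : ℤ) = 2 * E + 1 := Int.toNat_of_nonneg (by linarith)
  calc ((thinSet g q (g * ℓ) E).card : ℤ) ≤ ((g * (q ^ ℓ * (2 * E + 1).toNat) : ℕ) : ℤ) := by
        exact_mod_cast h1
    _ = g * ((q : ℤ) ^ ℓ * ((2 * E + 1).toNat : ℤ)) := by
        push_cast
        ring
    _ = g * ((q : ℤ) ^ ℓ * (2 * E + 1)) := by rw [h2]

/-- **Thin sets.** -/
theorem thin {g : ℕ} (hg : 0 < g) {u c : Fin g → ℤ} (hu : ∀ i, u i ≠ 0)
    (hc : ∑ i, u i * c i = 1) {S : ℕ} (hS : ∑ i, |u i| = S) (hS2 : 2 ≤ S) :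
    ∃ (C : ℝ) (X₀ : ℕ), 0 < C ∧ ∀ X : ℕ, X₀ ≤ X → ∃ Θ : Finset ℤ,
      (Θ.card : ℝ) ≤ C * (X : ℝ) ^ (1 / (g : ℝ)) ∧ (∀ τ ∈ Θ, |τ| + 2 ≤ X) ∧
      ∀ z : ℤ, |z| ≤ X + S → ∃ τ : Fin g → ℤ, (∀ i, τ i ∈ Θ) ∧ ∑ i, u i * τ i = z := by
  obtain ⟨q, hq⟩ : ∃ q : ℕ, q = (∏ j, (u j).natAbs) * 2 + 1 := ⟨_, rfl⟩
  have hM : ∀ i, |u i| ≤ (S : ℤ) := by
    intro i
    rw [← hS]
    exact Finset.single_le_sum (f := fun i => |u i|) (fun _ _ => abs_nonneg _) (Finset.mem_univ i)
  obtain ⟨K, hK⟩ : ∃ K : ℕ, ∀ i, (S : ℤ) * |c i| ≤ K := by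
    refine ⟨S * ∑ i, (c i).natAbs, fun i => ?_⟩
    have h1 : (c i).natAbs ≤ ∑ i, (c i).natAbs :=
      Finset.single_le_sum (f := fun i => (c i).natAbs) (fun _ _ => Nat.zero_le _)
        (Finset.mem_univ i)
    have h2 : |c i| ≤ ((∑ i, (c i).natAbs : ℕ) : ℤ) := by
      rw [Int.abs_eq_natAbs]
      exact_mod_cast h1
    rw [Nat.cast_mul]
    exact mul_le_mul_of_nonneg_left h2 (by positivity)
  have hcop : ∀ i, IsCoprime (q : ℤ) (u i) := fun i => by rw [hq]; exact coprime_q u i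
  have hq3 : 3 ≤ q := by
    have : 0 < ∏ j, (u j).natAbs := Finset.prod_pos fun j _ => Int.natAbs_pos.mpr (hu j)
    omega
  obtain ⟨W, hW⟩ : ∃ W : ℕ, W = 2 * S + 2 * K + 6 := ⟨_, rfl⟩
  obtain ⟨Q, hQ⟩ : ∃ Q : ℕ, Q = q ^ g := ⟨_, rfl⟩
  have hQ1 : 1 < Q := by
    rw [hQ]
    exact Nat.one_lt_pow hg.ne' (by omega)
  obtain ⟨C, hC⟩ : ∃ C : ℕ, C = g * (W * Q + 4 * S + 2 * K + 8) := ⟨_, rfl⟩
  have hC0 : 0 < C := by
    rw [hC]
    exact Nat.mul_pos hg (by omega)
  refine ⟨C, W + S + 4, by exact_mod_cast hC0, fun X hX => ?_⟩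
  obtain ⟨Y, hY⟩ : ∃ Y : ℕ, X = Y + S + 4 := ⟨X - S - 4, by omega⟩
  have hYW : W ≤ Y := by omega
  have hW0 : 0 < W := by omega
  obtain ⟨ℓ, hℓ⟩ : ∃ ℓ : ℕ, ℓ = Nat.log Q (Y / W) := ⟨_, rfl⟩
  have hdiv : Y / W ≠ 0 := by
    have := (Nat.le_div_iff_mul_le hW0).mpr (by omega : 1 * W ≤ Y)
    omega
  have h1 : Q ^ ℓ * W ≤ Y := by
    have := Nat.pow_log_le_self Q hdiv
    rw [← hℓ] at this
    exact (Nat.le_div_iff_mul_le hW0).mp this
  have h2 : Y < Q ^ ℓ * Q * W := by
    have := Nat.lt_pow_succ_log_self hQ1 (Y / W)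
    rw [← hℓ, pow_succ] at this
    exact (Nat.div_lt_iff_lt_mul hW0).mp this
  obtain ⟨P, hP⟩ : ∃ P : ℕ, P = Q ^ ℓ := ⟨_, rfl⟩
  rw [← hP] at h1 h2
  have hPq : P = q ^ (g * ℓ) := by rw [hP, hQ, ← pow_mul]
  have hP0 : 0 < P := by rw [hPq]; exact Nat.pow_pos (by omega)
  obtain ⟨V, hV⟩ : ∃ V : ℕ, V = (X + S) / P + 1 := ⟨_, rfl⟩
  have hV1 : X + S ≤ P * V := by
    have := Nat.lt_mul_div_succ (X + S) hP0
    rw [hV]
    exact this.le
  have hV2 : P * V ≤ X + S + P := by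
    rw [hV, mul_add, mul_one]
    exact Nat.add_le_add_right (Nat.mul_div_le _ _) _
  have hV3 : V ≤ W * Q + 2 * S + 5 := by
    have h3 : (X + S) / P ≤ W * Q + (2 * S + 4) := by
      apply Nat.div_le_of_le_mul
      have h4 : X + S = Y + (2 * S + 4) := by omega
      rw [h4, mul_add]
      have h5 : Y ≤ P * (W * Q) := by
        calc Y ≤ P * Q * W := h2.le
          _ = P * (W * Q) := by ring
      have h6 : 2 * S + 4 ≤ P * (2 * S + 4) := Nat.le_mul_of_pos_left _ hP0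
      omega
    omega
  obtain ⟨E, hE⟩ : ∃ E : ℕ, E = (V + 2 * S + 2 + 2 * K) / 2 := ⟨_, rfl⟩
  have hE2 : 2 * E ≤ V + 2 * S + 2 + 2 * K := by omega
  refine ⟨thinSet g q (g * ℓ) E, ?_, ?_, ?_⟩
  · have h3 := thinSet_card (g := g) (q := q) (ℓ := ℓ) (E := E) (by omega) (by positivity)
    have h4 : (thinSet g q (g * ℓ) E).card ≤ C * q ^ ℓ := by
      have h5 : ((thinSet g q (g * ℓ) E).card : ℤ) ≤ ((C * q ^ ℓ : ℕ) : ℤ) := by
        refine h3.trans ?_
        have h6 : 2 * E + 1 ≤ W * Q + 4 * S + 2 * K + 8 := by omega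
        have h7 : (2 * (E : ℤ) + 1) ≤ ((W * Q + 4 * S + 2 * K + 8 : ℕ) : ℤ) := by exact_mod_cast h6
        rw [hC]
        push_cast
        push_cast at h7
        have h8 : (0 : ℤ) ≤ (g : ℤ) * (q : ℤ) ^ ℓ := by positivity
        calc (g : ℤ) * ((q : ℤ) ^ ℓ * (2 * E + 1)) = (g : ℤ) * (q : ℤ) ^ ℓ * (2 * E + 1) := by ring
          _ ≤ (g : ℤ) * (q : ℤ) ^ ℓ * (W * Q + 4 * S + 2 * K + 8) :=
            mul_le_mul_of_nonneg_left h7 h8
          _ = _ := by ring
      exact_mod_cast h5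
    have h5 : ((q : ℝ) ^ ℓ) ≤ (X : ℝ) ^ (1 / (g : ℝ)) := by
      have hgR : (g : ℝ) ≠ 0 := by exact_mod_cast hg.ne'
      have h6 : ((q : ℝ) ^ ℓ) = (((q : ℝ) ^ ℓ) ^ (g : ℝ)) ^ (1 / (g : ℝ)) := by
        rw [← Real.rpow_mul (by positivity), mul_one_div_cancel hgR, Real.rpow_one]
      rw [h6]
      apply Real.rpow_le_rpow (by positivity) ?_ (by positivity)
      rw [Real.rpow_natCast, ← pow_mul, mul_comm ℓ g]
      have h7 : q ^ (g * ℓ) ≤ X := by
        rw [← hPq]
        have : P ≤ P * W := Nat.le_mul_of_pos_right _ hW0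
        omega
      exact_mod_cast h7
    calc ((thinSet g q (g * ℓ) E).card : ℝ) ≤ C * (q : ℝ) ^ ℓ := by exact_mod_cast h4
      _ ≤ C * (X : ℝ) ^ (1 / (g : ℝ)) := mul_le_mul_of_nonneg_left h5 (by positivity)
  · intro τ hτ
    rw [thinSet, Finset.mem_biUnion] at hτ
    obtain ⟨i, _, hi⟩ := hτ
    obtain ⟨⟨t, e⟩, hte, rfl⟩ := Finset.mem_image.mp hi
    rw [Finset.mem_product, Finset.mem_Icc] at hte
    obtain ⟨ht, he1, he2⟩ := hte
    simp only at ht he1 he2 ⊢
    obtain ⟨ht1, ht2⟩ := low_bound (by omega : 1 ≤ q) (g * ℓ) t ht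
    have hPz : (q : ℤ) ^ (g * ℓ) = P := by rw [hPq]; push_cast; ring
    rw [hPz] at ht2 ⊢
    have h3 : |t + (P : ℤ) * e| ≤ P * (E + 1) - 1 := by
      rw [abs_le]
      have hPz0 : (0 : ℤ) ≤ P := by positivity
      constructor
      · nlinarith
      · nlinarith
    have h4 : 2 * ((P : ℤ) * (E + 1)) ≤ P * (V + 2 * S + 4 + 2 * K) := by
      have h5 : 2 * (E : ℤ) ≤ V + 2 * S + 2 + 2 * K := by exact_mod_cast hE2
      have hPz0 : (0 : ℤ) ≤ P := by positivity
      nlinarith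
    have h6 : (P : ℤ) * V ≤ X + S + P := by exact_mod_cast hV2
    have h7 : (P : ℤ) * W ≤ Y := by exact_mod_cast h1
    have h8 : (X : ℤ) = Y + S + 4 := by exact_mod_cast hY
    have h9 : (W : ℤ) = 2 * S + 2 * K + 6 := by exact_mod_cast hW
    rw [h9] at h7
    nlinarith
  · intro z hz
    obtain ⟨τ, z', hτ, hz', hb⟩ := digits hg (by omega : 1 ≤ q) hM hcop (g * ℓ) V z (by
      refine hz.trans ?_
      have h3 : ((X + S : ℕ) : ℤ) ≤ ((P * V : ℕ) : ℤ) := by exact_mod_cast hV1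
      push_cast at h3
      have hPz : (q : ℤ) ^ (g * ℓ) = P := by rw [hPq]; push_cast; ring
      rw [hPz]
      have : (0 : ℤ) ≤ 2 * S := by positivity
      linarith)
    obtain ⟨e, he, heb⟩ := top hc hS (by exact_mod_cast hS2) hK z'
    refine ⟨fun i => τ i + (q : ℤ) ^ (g * ℓ) * e i, ?_, ?_⟩
    · intro i
      rw [thinSet, Finset.mem_biUnion]
      refine ⟨i, Finset.mem_univ i, Finset.mem_image.mpr ⟨(τ i, e i), ?_, rfl⟩⟩
      rw [Finset.mem_product, Finset.mem_Icc]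
      refine ⟨hτ i, ?_⟩
      have h3 := heb i
      have h4 : |e i| ≤ (E : ℤ) := by
        have h5 : 2 * |e i| ≤ V + 2 * S + 2 + 2 * K := by linarith
        rw [hE]
        omega
      exact abs_le.mp h4
    · rw [hz', ← he, Finset.mul_sum, ← Finset.sum_add_distrib]
      refine Finset.sum_congr rfl fun i _ => ?_
      ring

end Pool.Agent.H82.SZ
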