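import Pool.Agent.H82.SZ.Hom2
import Pool.Agent.H82.SZ.Thin

/-!
# Blocks: transfer from `ZMod N` to `ZMod m`
-/

set_option autoImplicit false

namespace Pool.Agent.H82.SZ

open Finset Pool.Agent.H73.HR

variable {g h : ℕ}

/-- the union of the blocks with index in `R` -/
def blockSet (N m : ℕ) (R : Set (ZMod N)) : Set (ZMod m) :=
  {x | ((x.val * N / m : ℕ) : ZMod N) ∈ R}

theorem blockSet_le {N m : ℕ} (hN : 0 < N) (hm : 0 < m) (R : Set (ZMod N)) :
    (blockSet N m R).ncard ≤ R.ncard * (m / N + 1) := by
  classical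
  have hneN : NeZero N := ⟨hN.ne'⟩
  have hnem : NeZero m := ⟨hm.ne'⟩
  have hfin : R.Finite := Set.toFinite _
  have key : ∀ x : ZMod m, x.val * N / m < N ∧
      ((x.val * N / m) * m + N - 1) / N ≤ x.val ∧
      x.val - ((x.val * N / m) * m + N - 1) / N ≤ m / N := by
    intro x
    have h0 := ZMod.val_lt x
    set b := x.val * N / m with hb
    have h1 : b * m ≤ x.val * N := by
      rw [hb]
      exact Nat.div_mul_le_self _ _
    have h2 : x.val * N < (b + 1) * m := by
      have := Nat.lt_div_mul_add (a := x.val * N) hm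
      rw [← hb] at this
      linarith
    have h3 : b < N := by
      rw [hb, Nat.div_lt_iff_lt_mul hm, mul_comm N m]
      exact Nat.mul_lt_mul_of_pos_right h0 hN
    set c := (b * m + N - 1) / N with hc
    have h4 : c * N ≤ b * m + N - 1 := by
      rw [hc]
      exact Nat.div_mul_le_self _ _
    have h5 : b * m + N - 1 < c * N + N := by
      have := Nat.lt_div_mul_add (a := b * m + N - 1) hN
      rwa [← hc] at this
    have h6 : c ≤ x.val := by
      by_contra hcon
      push Not at hcon
      have : (x.val + 1) * N ≤ c * N := Nat.mul_le_mul_right _ hcon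
      have h7 : (x.val + 1) * N = x.val * N + N := by ring
      omega
    refine ⟨h3, h6, ?_⟩
    rw [Nat.le_div_iff_mul_le hN]
    obtain ⟨y, hy⟩ := Nat.exists_eq_add_of_le h6
    have h8 : x.val - c = y := by omega
    rw [h8]
    have h9 : x.val * N = c * N + y * N := by rw [hy]; ring
    have h10 : (b + 1) * m = b * m + m := by ring
    omega
  have h1 : (blockSet N m R).ncard ≤
      (((hfin.toFinset ×ˢ Finset.range (m / N + 1) : Finset (ZMod N × ℕ)) :
        Set (ZMod N × ℕ))).ncard := by
    refine Set.ncard_le_ncard_of_injOn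
      (fun x => (((x.val * N / m : ℕ) : ZMod N),
        x.val - ((x.val * N / m) * m + N - 1) / N)) ?_ ?_ (Finset.finite_toSet _)
    · intro x hx
      rw [Finset.mem_coe, Finset.mem_product, Finset.mem_range]
      refine ⟨(Set.Finite.mem_toFinset _).mpr hx, ?_⟩
      have := (key x).2.2
      simp only
      omega
    · intro x _ y _ hxy
      simp only [Prod.mk.injEq] at hxy
      obtain ⟨h2, h3⟩ := hxy
      have h4 : x.val * N / m = y.val * N / m := by
        have h5 := (ZMod.natCast_eq_natCast_iff' _ _ N).mp h2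
        rwa [Nat.mod_eq_of_lt (key x).1, Nat.mod_eq_of_lt (key y).1] at h5
      have h5 := (key x).2.1
      have h6 := (key y).2.1
      rw [h4] at h3 h5
      apply ZMod.val_injective m
      omega
  rw [Set.ncard_coe_finset, Finset.card_product, Finset.card_range,
    ← Set.ncard_eq_toFinset_card _ hfin] at h1
  exact h1

theorem le_blockSet {N m : ℕ} (hN : 0 < N) (hm : 0 < m) (B : Set (ZMod N)) :
    B.ncard * (m / N) ≤ (blockSet N m B).ncard := by
  classical
  have hneN : NeZero N := ⟨hN.ne'⟩
  have hnem : NeZero m := ⟨hm.ne'⟩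
  have hfin : B.Finite := Set.toFinite _
  have key : ∀ b j : ℕ, b < N → j < m / N →
      (b * m + N - 1) / N + j < m ∧ ((b * m + N - 1) / N + j) * N / m = b := by
    intro b j hb hj
    set c := (b * m + N - 1) / N with hc
    have h4 : c * N ≤ b * m + N - 1 := by
      rw [hc]
      exact Nat.div_mul_le_self _ _
    have h5 : b * m + N - 1 < c * N + N := by
      have := Nat.lt_div_mul_add (a := b * m + N - 1) hN
      rwa [← hc] at this
    have h6 : (j + 1) * N ≤ m := (Nat.le_div_iff_mul_le hN).mp hj
    have h7 : (j + 1) * N = j * N + N := by ring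
    have h8 : (c + j) * N = c * N + j * N := by ring
    have h9 : (b + 1) * m = b * m + m := by ring
    have h10 : (c + j) * N < (b + 1) * m := by omega
    have h11 : b * m ≤ (c + j) * N := by omega
    refine ⟨?_, ?_⟩
    · have h12 : (b + 1) * m ≤ N * m := Nat.mul_le_mul_right _ hb
      have h13 : (c + j) * N < m * N := by
        rw [mul_comm m N]
        omega
      exact Nat.lt_of_mul_lt_mul_right h13
    · exact Nat.div_eq_of_lt_le h11 h10
  have h1 : (((hfin.toFinset ×ˢ Finset.range (m / N) : Finset (ZMod N × ℕ)) :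
      Set (ZMod N × ℕ))).ncard ≤ (blockSet N m B).ncard := by
    refine Set.ncard_le_ncard_of_injOn
      (fun q => (((q.1.val * m + N - 1) / N + q.2 : ℕ) : ZMod m)) ?_ ?_ (Set.toFinite _)
    · rintro ⟨b, j⟩ hbj
      rw [Finset.mem_coe, Finset.mem_product, Finset.mem_range] at hbj
      obtain ⟨hb, hj⟩ := hbj
      obtain ⟨h2, h3⟩ := key b.val j (ZMod.val_lt b) hj
      show ((_ : ℕ) : ZMod N) ∈ B
      rw [ZMod.val_natCast, Nat.mod_eq_of_lt h2, h3, ZMod.natCast_zmod_val]
      exact (Set.Finite.mem_toFinset _).mp hb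
    · rintro ⟨b, j⟩ hbj ⟨b', j'⟩ hbj' heq
      rw [Finset.mem_coe, Finset.mem_product, Finset.mem_range] at hbj hbj'
      obtain ⟨h2, h3⟩ := key b.val j (ZMod.val_lt b) hbj.2
      obtain ⟨h2', h3'⟩ := key b'.val j' (ZMod.val_lt b') hbj'.2
      simp only at heq
      have h5 := (ZMod.natCast_eq_natCast_iff' _ _ m).mp heq
      rw [Nat.mod_eq_of_lt h2, Nat.mod_eq_of_lt h2'] at h5
      have h6 : b.val = b'.val := by rw [← h3, ← h3', h5]
      have h7 : b = b' := ZMod.val_injective N h6
      subst h7
      have h8 : j = j' := by omega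
      rw [h8]
  rw [Set.ncard_coe_finset, Finset.card_product, Finset.card_range,
    ← Set.ncard_eq_toFinset_card _ hfin] at h1
  exact h1

theorem im_blockSet {φ : Fin h → ℤ} {N m : ℕ} (hN : 0 < N) (hm : 0 < m) {S : ℕ}
    (hS : ∑ i, |φ i| = S) (B : Set (ZMod N)) :
    (im φ (blockSet N m B)).ncard ≤ (im φ B).ncard * (2 * S + 1) * (m / N + 1) := by
  classical
  have hneN : NeZero N := ⟨hN.ne'⟩
  have hnem : NeZero m := ⟨hm.ne'⟩
  have hfin : (im φ B).Finite := Set.toFinite _
  set R : Finset (ZMod N) := (hfin.toFinset ×ˢ Finset.Icc (-(S : ℤ)) S).image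
    fun q => q.1 + ((q.2 : ℤ) : ZMod N) with hR
  have hRc : R.card ≤ (im φ B).ncard * (2 * S + 1) := by
    refine Finset.card_image_le.trans (le_of_eq ?_)
    rw [Finset.card_product, Int.card_Icc, ← Set.ncard_eq_toFinset_card _ hfin]
    congr 1
    omega
  have hmz : (0 : ℤ) < m := by exact_mod_cast hm
  have hsub : im φ (blockSet N m B) ⊆ blockSet N m (R : Set (ZMod N)) := by
    rintro y ⟨t, ht, rfl⟩
    set y := ∑ i, φ i • t i with hy
    set b : Fin h → ℕ := fun i => (t i).val * N / m with hb
    -- the integer sum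
    set X : ℤ := ∑ i, φ i * (t i).val with hX
    have h1 : (y.val : ℤ) = X % m := by
      have h2 : ((X : ℤ) : ZMod m) = y := by
        rw [hX, hy]
        push_cast
        refine Finset.sum_congr rfl fun i _ => ?_
        rw [ZMod.natCast_zmod_val, zsmul_eq_mul]
      rw [← h2, ZMod.val_intCast]
    have h3 : ((y.val * N / m : ℕ) : ℤ) = X * N / m - (X / m) * N := by
      rw [Int.natCast_div, Nat.cast_mul, h1]
      have h4 : X % m * N = X * N - m * ((X / m) * N) := by
        have := Int.emod_add_mul_ediv X m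
        have h5 : X % m = X - m * (X / m) := by linarith
        rw [h5]
        ring
      rw [h4, Int.sub_mul_ediv_left _ _ hmz.ne']
    have h5 : |X * N / m - ∑ i, φ i * (b i : ℤ)| ≤ S := by
      have hbi : ∀ i, (m : ℤ) * b i ≤ (t i).val * N ∧ ((t i).val * N : ℤ) < m * b i + m := by
        intro i
        have h6 : b i * m ≤ (t i).val * N := Nat.div_mul_le_self _ _
        have h7 : (t i).val * N < b i * m + m := Nat.lt_div_mul_add hm
        constructor
        · have : ((b i * m : ℕ) : ℤ) ≤ (((t i).val * N : ℕ) : ℤ) := by exact_mod_cast h6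
          push_cast at this
          linarith
        · have : (((t i).val * N : ℕ) : ℤ) < ((b i * m + m : ℕ) : ℤ) := by exact_mod_cast h7
          push_cast at this
          linarith
      have h8 : |X * N - m * ∑ i, φ i * (b i : ℤ)| ≤ S * m := by
        have h9 : X * N - m * ∑ i, φ i * (b i : ℤ) =
            ∑ i, φ i * ((t i).val * N - m * b i) := by
          rw [hX, Finset.sum_mul, Finset.mul_sum, ← Finset.sum_sub_distrib]
          refine Finset.sum_congr rfl fun i _ => ?_
          ring
        rw [h9, ← hS, Finset.sum_mul]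
        refine (Finset.abs_sum_le_sum_abs _ _).trans (Finset.sum_le_sum fun i _ => ?_)
        rw [abs_mul]
        refine mul_le_mul_of_nonneg_left ?_ (abs_nonneg _)
        obtain ⟨h10, h11⟩ := hbi i
        rw [abs_of_nonneg (by linarith)]
        linarith
      obtain ⟨h12, h13⟩ := abs_le.mp h8
      rw [abs_le]
      constructor
      · have : (∑ i, φ i * (b i : ℤ)) - S ≤ X * N / m := by
          rw [Int.le_ediv_iff_mul_le hmz]
          linarith
        linarith
      · have : X * N / m < (∑ i, φ i * (b i : ℤ)) + S + 1 := by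
          rw [Int.ediv_lt_iff_lt_mul hmz]
          nlinarith
        linarith
    show ((y.val * N / m : ℕ) : ZMod N) ∈ (R : Set (ZMod N))
    rw [Finset.mem_coe, hR, Finset.mem_image]
    refine ⟨(∑ i, φ i • ((b i : ℕ) : ZMod N), X * N / m - ∑ i, φ i * (b i : ℤ)), ?_, ?_⟩
    · rw [Finset.mem_product, Finset.mem_Icc]
      refine ⟨?_, abs_le.mp h5⟩
      rw [Set.Finite.mem_toFinset]
      exact ⟨fun i => ((b i : ℕ) : ZMod N), fun i => ht i, rfl⟩
    · have h6 : ((y.val * N / m : ℕ) : ZMod N) = (((y.val * N / m : ℕ) : ℤ) : ZMod N) := by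
        rw [Int.cast_natCast]
      rw [h6, h3]
      push_cast
      rw [ZMod.natCast_self, mul_zero, sub_zero]
      have h7 : ∑ i, φ i • ((b i : ℕ) : ZMod N) = ∑ i, (φ i : ZMod N) * (b i : ZMod N) :=
        Finset.sum_congr rfl fun i _ => zsmul_eq_mul _ _
      rw [h7]
      ring
  refine (Set.ncard_le_ncard hsub (Set.toFinite _)).trans ((blockSet_le hN hm _).trans ?_)
  rw [Set.ncard_coe_finset]
  exact Nat.mul_le_mul_right _ hRc

end Pool.Agent.H82.SZ
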