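import Pool.Agent.H82.SZ.Simplex

/-!
# The exponent for sums and differences is `2`
-/

set_option autoImplicit false

namespace Pool.Agent.H82.SZ

open Finset Filter Topology Pool.Agent.H73.HR
open scoped Pointwise Nat

theorem choose_double (L D : ℕ) : (2 * L + D).choose D ≤ 2 ^ D * (L + D).choose D := by
  have h1 : (2 * L + 1).ascFactorial D ≤ 2 ^ D * (L + 1).ascFactorial D := by
    induction D with
    | zero => simp
    | succ D ih =>
      rw [Nat.ascFactorial_succ, Nat.ascFactorial_succ, pow_succ]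
      calc (2 * L + 1 + D) * (2 * L + 1).ascFactorial D
          ≤ (2 * (L + 1 + D)) * (2 ^ D * (L + 1).ascFactorial D) :=
            Nat.mul_le_mul (by omega) ih
        _ = 2 ^ D * 2 * ((L + 1 + D) * (L + 1).ascFactorial D) := by ring
  rw [Nat.ascFactorial_eq_factorial_mul_choose, Nat.ascFactorial_eq_factorial_mul_choose] at h1
  have h2 : D ! * (2 * L + D).choose D ≤ D ! * (2 ^ D * (L + D).choose D) := by
    calc D ! * (2 * L + D).choose D ≤ 2 ^ D * (D ! * (L + D).choose D) := h1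
      _ = _ := by ring
  exact Nat.le_of_mul_le_mul_left h2 (Nat.factorial_pos D)

theorem half_pow {k : ℕ} (hk : 1 ≤ k) :
    ((8 * k ^ 2 + k : ℕ) : ℝ) ^ (2 * k) ≤ 2 * ((8 * k ^ 2 + 1 - k : ℕ) : ℝ) ^ (2 * k) := by
  have hk' : (1 : ℝ) ≤ k := by exact_mod_cast hk
  have hk2 : k ≤ 8 * k ^ 2 := by nlinarith
  have e1 : ((8 * k ^ 2 + 1 - k : ℕ) : ℝ) = 8 * (k : ℝ) ^ 2 + 1 - k := by
    rw [Nat.cast_sub (by omega)]
    push_cast
    ring
  have e2 : ((8 * k ^ 2 + k : ℕ) : ℝ) = 8 * (k : ℝ) ^ 2 + k := by push_cast; ring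
  rw [e1, e2]
  set P : ℝ := 8 * (k : ℝ) ^ 2 + k with hP
  have hP0 : 0 < P := by positivity
  set x : ℝ := -((2 * k - 1) / P) with hx
  have hx1 : (1 + x) * P = 8 * (k : ℝ) ^ 2 + 1 - k := by
    rw [hx, add_mul, one_mul, neg_mul, div_mul_cancel₀ _ hP0.ne', hP]
    ring
  have hx2 : -2 ≤ x := by
    rw [hx, neg_le_neg_iff, div_le_iff₀ hP0]
    nlinarith
  have h1 := one_add_mul_le_pow hx2 (2 * k)
  have h2 : (1 : ℝ) / 2 ≤ 1 + ((2 * k : ℕ) : ℝ) * x := by
    have h3 : ((2 * k : ℕ) : ℝ) * ((2 * k - 1) / P) ≤ 1 / 2 := by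
      rw [← mul_div_assoc, div_le_div_iff₀ hP0 (by norm_num)]
      push_cast
      nlinarith
    rw [hx]
    linarith
  rw [← hx1, mul_pow]
  have h4 : 0 ≤ P ^ (2 * k) := by positivity
  nlinarith

theorem main_ineq {k : ℕ} (hk : 1 ≤ k) :
    4 ^ k * (2 * (8 * k ^ 2) + 2 * k).choose (2 * k) ≤
      8 * k ^ 2 * ((2 * k).choose k * ((8 * k ^ 2).choose k * (8 * k ^ 2 + k).choose k)) := by
  have hk2 : k ≤ 8 * k ^ 2 := by nlinarith
  have hk' : (1 : ℝ) ≤ k := by exact_mod_cast hk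
  obtain ⟨L, hL⟩ : ∃ L, L = 8 * k ^ 2 := ⟨_, rfl⟩
  have hhalf := half_pow hk
  rw [← hL] at hhalf hk2 ⊢
  obtain ⟨c, hc⟩ : ∃ c, c = (2 * k).choose k := ⟨_, rfl⟩
  rw [← hc]
  have h1 : ((L + 1 - k : ℕ) : ℝ) ^ k ≤ (k ! : ℝ) * (L.choose k : ℝ) := by
    have := Nat.pow_le_choose (α := ℝ) k L
    rw [div_le_iff₀ (by positivity)] at this
    linarith
  have h2 : ((L + 1 - k : ℕ) : ℝ) ^ k ≤ (k ! : ℝ) * ((L + k).choose k : ℝ) := by
    have := Nat.pow_le_choose (α := ℝ) k (L + k)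
    rw [div_le_iff₀ (by positivity)] at this
    have h3 : ((L + 1 - k : ℕ) : ℝ) ^ k ≤ ((L + k + 1 - k : ℕ) : ℝ) ^ k := by
      apply pow_le_pow_left₀ (by positivity)
      exact_mod_cast (by omega : L + 1 - k ≤ L + k + 1 - k)
    linarith
  have h3 : (((2 * k)! : ℕ) : ℝ) * ((2 * L + 2 * k).choose (2 * k) : ℝ) ≤
      4 ^ k * ((L + k : ℕ) : ℝ) ^ (2 * k) := by
    have := Nat.choose_le_pow_div (α := ℝ) (2 * k) (2 * L + 2 * k)
    rw [le_div_iff₀ (by positivity)] at this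
    have h4 : ((2 * L + 2 * k : ℕ) : ℝ) ^ (2 * k) = 4 ^ k * ((L + k : ℕ) : ℝ) ^ (2 * k) := by
      have : ((2 * L + 2 * k : ℕ) : ℝ) = 2 * ((L + k : ℕ) : ℝ) := by push_cast; ring
      rw [this, mul_pow, pow_mul]
      norm_num
    rw [h4] at this
    linarith
  have h5 : (c : ℝ) * (k ! * k !) = ((2 * k)! : ℕ) := by
    have := Nat.choose_mul_factorial_mul_factorial (show k ≤ 2 * k by omega)
    have h6 : 2 * k - k = k := by omega
    rw [h6, ← hc] at this
    have h7 : c * (k ! * k !) = (2 * k)! := by rw [← mul_assoc]; exact this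
    exact_mod_cast h7
  have h6 : (4 : ℝ) ^ k ≤ 2 * k * c := by
    have := Nat.four_pow_le_two_mul_self_mul_centralBinom k hk
    rw [Nat.centralBinom_eq_two_mul_choose, ← hc] at this
    exact_mod_cast this
  -- combine
  have hkf : (0 : ℝ) < k ! := by exact_mod_cast Nat.factorial_pos k
  have hc0 : (0 : ℝ) ≤ c := by positivity
  have h2kf : (0 : ℝ) < ((2 * k)! : ℕ) := by exact_mod_cast Nat.factorial_pos (2 * k)
  set q : ℝ := ((L + 1 - k : ℕ) : ℝ) ^ k with hq
  have hq0 : 0 ≤ q := by positivity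
  have h7 : q * q ≤ (k ! * k ! : ℝ) * ((L.choose k : ℝ) * ((L + k).choose k : ℝ)) := by
    calc q * q ≤ (k ! * (L.choose k : ℝ)) * (k ! * ((L + k).choose k : ℝ)) :=
          mul_le_mul h1 h2 hq0 (by positivity)
      _ = _ := by ring
  have h8 : ((L + k : ℕ) : ℝ) ^ (2 * k) ≤ 2 * (q * q) := by
    refine hhalf.trans (le_of_eq ?_)
    rw [hq, ← pow_add]
    congr 2
    ring
  have h9 : (((2 * k)! : ℕ) : ℝ) * (4 ^ k * ((2 * L + 2 * k).choose (2 * k) : ℝ)) ≤
      ((2 * k)! : ℕ) * (8 * (k : ℝ) ^ 2 * (c * ((L.choose k : ℝ) * ((L + k).choose k : ℝ)))) := by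
    calc (((2 * k)! : ℕ) : ℝ) * (4 ^ k * ((2 * L + 2 * k).choose (2 * k) : ℝ))
        = 4 ^ k * ((((2 * k)! : ℕ) : ℝ) * ((2 * L + 2 * k).choose (2 * k) : ℝ)) := by ring
      _ ≤ 4 ^ k * (4 ^ k * ((L + k : ℕ) : ℝ) ^ (2 * k)) :=
          mul_le_mul_of_nonneg_left h3 (by positivity)
      _ ≤ 4 ^ k * (4 ^ k * (2 * (q * q))) := by
          refine mul_le_mul_of_nonneg_left ?_ (by positivity)
          exact mul_le_mul_of_nonneg_left h8 (by positivity)
      _ = (4 ^ k * 4 ^ k) * (2 * (q * q)) := by ring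
      _ ≤ ((2 * k * c) * (2 * k * c)) * (2 * (q * q)) := by
          refine mul_le_mul_of_nonneg_right ?_ (by positivity)
          exact mul_le_mul h6 h6 (by positivity) (by positivity)
      _ = 8 * (k : ℝ) ^ 2 * c * c * (q * q) := by ring
      _ ≤ 8 * (k : ℝ) ^ 2 * c * c *
          ((k ! * k ! : ℝ) * ((L.choose k : ℝ) * ((L + k).choose k : ℝ))) :=
          mul_le_mul_of_nonneg_left h7 (by positivity)
      _ = (c * (k ! * k !)) *
          (8 * (k : ℝ) ^ 2 * (c * ((L.choose k : ℝ) * ((L + k).choose k : ℝ)))) := by ring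
      _ = _ := by rw [h5]
  have h10 := le_of_mul_le_mul_left h9 h2kf
  have h11 : ((4 ^ k * (2 * L + 2 * k).choose (2 * k) : ℕ) : ℝ) ≤
      ((8 * k ^ 2 * (c * (L.choose k * (L + k).choose k)) : ℕ) : ℝ) := by
    push_cast
    exact h10
  have h12 : 4 ^ k * (2 * L + 2 * k).choose (2 * k) ≤
      8 * k ^ 2 * (c * (L.choose k * (L + k).choose k)) := by exact_mod_cast h11
  rw [hL] at h12 ⊢
  exact h12

/-- Ruzsa's triangle inequality -/
theorem ruzsa (A : Finset ℤ) :
    (im ![(1 : ℤ), -1] (A : Set ℤ)).ncard * A.card ≤ (im ![(1 : ℤ), 1] (A : Set ℤ)).ncard ^ 2 := by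
  classical
  have h1 : im ![(1 : ℤ), -1] (A : Set ℤ) = ((A - A : Finset ℤ) : Set ℤ) := by
    ext x
    rw [mem_im_sub, Finset.mem_coe, Finset.mem_sub]
    constructor
    · rintro ⟨a, ha, b, hb, rfl⟩
      exact ⟨a, ha, b, hb, rfl⟩
    · rintro ⟨a, ha, b, hb, rfl⟩
      exact ⟨a, ha, b, hb, rfl⟩
  have h2 : im ![(1 : ℤ), 1] (A : Set ℤ) = ((A + A : Finset ℤ) : Set ℤ) := by
    ext x
    rw [mem_im_add, Finset.mem_coe, Finset.mem_add]
    constructor
    · rintro ⟨a, ha, b, hb, rfl⟩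
      exact ⟨a, ha, b, hb, rfl⟩
    · rintro ⟨a, ha, b, hb, rfl⟩
      exact ⟨a, ha, b, hb, rfl⟩
  rw [h1, h2, Set.ncard_coe_finset, Set.ncard_coe_finset, sq]
  exact Finset.ruzsa_triangle_inequality_sub_add_add A A A

/-- **The exponent for differences and sums.** -/
theorem lam_classical : lam ![(1 : ℤ), -1] ![(1 : ℤ), 1] = 2 := by
  have hg : 0 < 2 := by norm_num
  have hφ : ∀ i, ![(1 : ℤ), 1] i ≠ 0 := by
    intro i
    fin_cases i <;> simp
  have hbdd : ∀ r ∈ {r | ∃ A : Finset ℤ, (im ![(1 : ℤ), 1] (A : Set ℤ)).ncard <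
      (im ![(1 : ℤ), -1] (A : Set ℤ)).ncard ∧
      r = Real.log ((im ![(1 : ℤ), -1] (A : Set ℤ)).ncard / A.card) /
      Real.log ((im ![(1 : ℤ), -1] (A : Set ℤ)).ncard / (im ![(1 : ℤ), 1] (A : Set ℤ)).ncard)},
      (2 : ℝ) ≤ r := by
    rintro r ⟨A, hA, rfl⟩
    obtain ⟨h1, h2⟩ := sizes hg hg hφ A hA
    obtain ⟨h3, _⟩ := one_le_ratio hg hg hφ A hA
    have h4 := ruzsa A
    rw [le_div_iff₀ h3]
    set u : ℝ := ((im ![(1 : ℤ), -1] (A : Set ℤ)).ncard : ℝ) with hu
    set f : ℝ := ((im ![(1 : ℤ), 1] (A : Set ℤ)).ncard : ℝ) with hf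
    have ha : (1 : ℝ) ≤ A.card := by exact_mod_cast h1
    have hf1 : (1 : ℝ) ≤ f := by rw [hf]; exact_mod_cast (by omega :
      1 ≤ (im ![(1 : ℤ), 1] (A : Set ℤ)).ncard)
    have hu1 : (1 : ℝ) ≤ u := by rw [hu]; exact_mod_cast (by omega :
      1 ≤ (im ![(1 : ℤ), -1] (A : Set ℤ)).ncard)
    have h5 : u * A.card ≤ f ^ 2 := by rw [hu, hf]; exact_mod_cast h4
    have h6 := Real.log_le_log (by positivity) h5
    rw [Real.log_mul (by linarith) (by linarith), Real.log_pow] at h6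
    rw [Real.log_div (by linarith) (by linarith), Real.log_div (by linarith) (by linarith)]
    push_cast at h6
    linarith
  apply le_antisymm
  · refine le_of_forall_pos_lt_add fun η hη => ?_
    -- the choice of `k`
    obtain ⟨r, hr⟩ : ∃ r : ℝ, r = η * Real.log 4 / (1 + η) := ⟨_, rfl⟩
    have hlog4 : 0 < Real.log 4 := Real.log_pos (by norm_num)
    have hr0 : 0 < r := by rw [hr]; positivity
    have h1 := tendsto_pow_const_div_const_pow_of_one_lt 2 (Real.one_lt_exp_iff.mpr hr0)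
    have h2 := h1.eventually (gt_mem_nhds (show (0 : ℝ) < 1 / 8 by norm_num))
    obtain ⟨k, hk1, hk2⟩ := (h2.and (eventually_ge_atTop 1)).exists
    have hk' : (1 : ℝ) ≤ k := by exact_mod_cast hk2
    rw [div_lt_div_iff₀ (by positivity) (by norm_num), one_mul] at hk1
    have hlog : Real.log (8 * (k : ℝ) ^ 2) < k * r := by
      have h3 := Real.log_lt_log (by positivity) hk1
      rw [← Real.exp_nat_mul, Real.log_exp] at h3
      rw [mul_comm (8 : ℝ)]
      exact h3
    -- the set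
    obtain ⟨A, hAdef⟩ : ∃ A, A = splx (2 * k) (8 * k ^ 2) := ⟨_, rfl⟩
    have hkL : k ≤ 8 * k ^ 2 := by nlinarith
    have hf := card_add_le (2 * k) (8 * k ^ 2)
    have hu := le_card_sub k (8 * k ^ 2) hkL
    have ha := card_splx (2 * k) (8 * k ^ 2)
    have hm := main_ineq hk2
    have hd := choose_double (8 * k ^ 2) (2 * k)
    rw [← hAdef] at hf hu ha
    rw [← ha] at hd
    have hA1 : 1 ≤ A.card := by
      rw [ha]
      exact Nat.choose_pos (by omega)
    have hAne : (A : Set ℤ).Nonempty := by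
      rw [Finset.coe_nonempty, ← Finset.card_pos]
      omega
    have hf1 : 1 ≤ (im ![(1 : ℤ), 1] (A : Set ℤ)).ncard :=
      (Set.ncard_pos (im_finite' _ A)).mpr (im_nonempty hAne)
    have hu1 : 1 ≤ (im ![(1 : ℤ), -1] (A : Set ℤ)).ncard :=
      (Set.ncard_pos (im_finite' _ A)).mpr (im_nonempty hAne)
    obtain ⟨u, hudef⟩ : ∃ u, u = (im ![(1 : ℤ), -1] (A : Set ℤ)).ncard := ⟨_, rfl⟩
    obtain ⟨f, hfdef⟩ : ∃ f, f = (im ![(1 : ℤ), 1] (A : Set ℤ)).ncard := ⟨_, rfl⟩
    rw [← hfdef] at hf hf1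
    rw [← hudef] at hu hu1
    have hfu : 4 ^ k * f ≤ 8 * k ^ 2 * u :=
      (Nat.mul_le_mul_left _ hf).trans (hm.trans (Nat.mul_le_mul_left _ hu))
    have hfa : f ≤ 4 ^ k * A.card := by
      refine hf.trans (hd.trans (le_of_eq ?_))
      rw [pow_mul]
      norm_num
    have hfu' : (4 : ℝ) ^ k * f ≤ 8 * (k : ℝ) ^ 2 * u := by exact_mod_cast hfu
    have hfa' : (f : ℝ) ≤ 4 ^ k * A.card := by exact_mod_cast hfa
    have ha0 : (1 : ℝ) ≤ A.card := by exact_mod_cast hA1
    have hf0 : (1 : ℝ) ≤ f := by exact_mod_cast hf1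
    have hu0 : (1 : ℝ) ≤ u := by exact_mod_cast hu1
    -- logarithms
    have l1 : k * Real.log 4 + Real.log f ≤ Real.log (8 * (k : ℝ) ^ 2) + Real.log u := by
      have := Real.log_le_log (by positivity) hfu'
      rwa [Real.log_mul (by positivity) (by linarith), Real.log_mul (by positivity) (by linarith),
        Real.log_pow] at this
    have l2 : Real.log f ≤ k * Real.log 4 + Real.log A.card := by
      have := Real.log_le_log (by linarith) hfa'
      rwa [Real.log_mul (by positivity) (by linarith), Real.log_pow] at this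
    have l3 : Real.log (8 * (k : ℝ) ^ 2) * (1 + η) < k * (η * Real.log 4) := by
      rw [hr] at hlog
      have h4 : (k : ℝ) * (η * Real.log 4 / (1 + η)) * (1 + η) = k * (η * Real.log 4) := by
        field_simp
      rw [← h4]
      exact mul_lt_mul_of_pos_right hlog (by linarith)
    have l4 : 0 ≤ Real.log (8 * (k : ℝ) ^ 2) := Real.log_nonneg (by nlinarith)
    have l5 : k * Real.log 4 - Real.log (8 * (k : ℝ) ^ 2) ≤ Real.log u - Real.log f := by linarith
    have hkl : 0 < (k : ℝ) * Real.log 4 := by positivity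
    have l6 : (k : ℝ) * Real.log 4 <
        (1 + η) * (k * Real.log 4 - Real.log (8 * (k : ℝ) ^ 2)) := by linarith
    have l7 : 0 < k * Real.log 4 - Real.log (8 * (k : ℝ) ^ 2) := by
      by_contra hcon
      push Not at hcon
      have : (1 + η) * (k * Real.log 4 - Real.log (8 * (k : ℝ) ^ 2)) ≤ 0 :=
        mul_nonpos_of_nonneg_of_nonpos (by linarith) hcon
      linarith
    have l8 : Real.log f < Real.log u := by linarith
    have hlt : f < u := by
      have := (Real.log_lt_log_iff (by linarith) (by linarith)).mp l8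
      exact_mod_cast this
    have l9 : Real.log u - Real.log A.card < (2 + η) * (Real.log u - Real.log f) := by
      have h5 : (1 + η) * (k * Real.log 4 - Real.log (8 * (k : ℝ) ^ 2)) ≤
          (1 + η) * (Real.log u - Real.log f) :=
        mul_le_mul_of_nonneg_left l5 (by linarith)
      linarith
    rw [hudef, hfdef] at hlt
    refine (csInf_le ⟨2, hbdd⟩ ⟨A, hlt, rfl⟩).trans_lt ?_
    rw [← hudef, ← hfdef, Real.log_div (by linarith) (by linarith),
      Real.log_div (by linarith) (by linarith), div_lt_iff₀ (by linarith)]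
    exact l9
  · refine le_csInf ?_ hbdd
    refine lam_nonempty hg (υ := ![(1 : ℤ), -1]) ?_ ?_ ?_
    · intro i
      fin_cases i <;> simp
    · exact ⟨Finset.univ, Finset.univ_nonempty, by simp [Fin.sum_univ_two]⟩
    · intro J hJ
      have h1 : ∀ j ∈ J, ![(1 : ℤ), 1] j = 1 := by
        intro j _
        fin_cases j <;> simp
      rw [Finset.sum_congr rfl h1]
      simp only [Finset.sum_const, mul_one, nsmul_eq_mul]
      have := Finset.card_pos.mpr hJ
      exact_mod_cast this.ne'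

end Pool.Agent.H82.SZ
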