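import Pool.Agent.H82.SZ.Blocks

/-!
# All sizes between the thin set and the full blocks
-/

set_option autoImplicit false

namespace Pool.Agent.H82.SZ

open Finset Pool.Agent.H73.HR

variable {g h : ℕ}

theorem im_mono {M : Type*} [AddCommGroup M] (φ : Fin h → ℤ) {A B : Set M} (hAB : A ⊆ B) :
    im φ A ⊆ im φ B := by
  rintro _ ⟨a, ha, rfl⟩
  exact ⟨a, fun i => hAB (ha i), rfl⟩

theorem thin_blocks {u : Fin g → ℤ} {N m : ℕ} (hN : 0 < N) (hm : 0 < m) {S : ℕ}
    (hS : ∑ i, |u i| = S) {B : Set (ZMod N)} (hB : im u B = Set.univ) {X : ℕ}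
    (hX : X = m / (2 * N)) {Θ : Finset ℤ} (hΘ : ∀ τ ∈ Θ, |τ| + 2 ≤ X)
    (hcov : ∀ z : ℤ, |z| ≤ X + S → ∃ τ : Fin g → ℤ, (∀ i, τ i ∈ Θ) ∧ ∑ i, u i * τ i = z) :
    ∃ A : Finset (ZMod m), (A : Set (ZMod m)) ⊆ blockSet N m B ∧
      im u (A : Set (ZMod m)) = Set.univ ∧ A.card ≤ N * Θ.card := by
  classical
  have hneN : NeZero N := ⟨hN.ne'⟩
  have hnem : NeZero m := ⟨hm.ne'⟩
  have hmz : (0 : ℤ) < m := by exact_mod_cast hm
  have hNz : (0 : ℤ) < N := by exact_mod_cast hN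
  have hX1 : 2 * (N : ℤ) * X ≤ m := by
    have : 2 * N * X ≤ m := by rw [hX]; exact Nat.mul_div_le _ _
    exact_mod_cast this
  have hX2 : (m : ℤ) < 2 * N * (X + 1) := by
    have : m < 2 * N * (X + 1) := by
      rw [hX]
      exact Nat.lt_mul_div_succ m (by omega)
    exact_mod_cast this
  -- the middle points
  obtain ⟨mid, hmid⟩ : ∃ mid : ZMod N → ℤ, ∀ b, 2 * (N : ℤ) * mid b ≤ (2 * b.val + 1) * m ∧
      ((2 * b.val + 1) * m : ℤ) < 2 * N * mid b + 2 * N := by
    refine ⟨fun b => ((2 * b.val + 1) * m : ℤ) / (2 * N), fun b => ⟨?_, ?_⟩⟩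
    · exact Int.mul_ediv_self_le (by positivity)
    · have := Int.lt_mul_ediv_self_add (x := ((2 * b.val + 1) * m : ℤ)) (k := 2 * (N : ℤ))
        (by positivity)
      exact this
  refine ⟨((Finset.univ.filter fun b => b ∈ B) ×ˢ Θ).image
    fun q => ((mid q.1 + q.2 : ℤ) : ZMod m), ?_, ?_, ?_⟩
  · intro x hx
    rw [Finset.mem_coe, Finset.mem_image] at hx
    obtain ⟨⟨b, τ⟩, hbτ, rfl⟩ := hx
    rw [Finset.mem_product, Finset.mem_filter] at hbτ
    obtain ⟨⟨_, hb⟩, hτ⟩ := hbτ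
    simp only at hb hτ ⊢
    obtain ⟨h1, h2⟩ := hmid b
    have h3 := hΘ τ hτ
    obtain ⟨h4, h5⟩ := abs_le.mp (show |τ| ≤ (X : ℤ) - 2 by linarith)
    have hbv : (b.val : ℤ) + 1 ≤ N := by exact_mod_cast ZMod.val_lt b
    have hb0 : (0 : ℤ) ≤ b.val := by positivity
    set v := mid b + τ with hv
    have h6 : 2 * (N : ℤ) * v ≤ (2 * b.val + 1) * m + 2 * N * (X - 2) := by
      rw [hv, mul_add]
      nlinarith
    have h7 : (2 * b.val + 1) * m - 2 * (N : ℤ) * (X - 1) < 2 * (N : ℤ) * v := by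
      rw [hv, mul_add]
      nlinarith
    have h8 : v * N < (b.val + 1) * m := by nlinarith
    have h9 : b.val * m ≤ v * N := by nlinarith
    have h10 : 0 ≤ v := by
      by_contra hcon
      push Not at hcon
      have : v * N < 0 := mul_neg_of_neg_of_pos hcon hNz
      nlinarith
    have h11 : v < m := by
      have : v * N < m * N := by nlinarith
      exact lt_of_mul_lt_mul_right this hNz.le
    show ((_ : ℕ) : ZMod N) ∈ B
    have h12 : ((((v : ZMod m)).val : ℕ) : ℤ) = v := by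
      rw [ZMod.val_intCast, Int.emod_eq_of_lt h10 h11]
    have h13 : ((((v : ZMod m)).val * N / m : ℕ) : ℤ) = b.val := by
      rw [Int.natCast_div, Nat.cast_mul, h12]
      apply le_antisymm
      · have : v * N / m < b.val + 1 := by
          rw [Int.ediv_lt_iff_lt_mul hmz]
          exact h8
        linarith
      · rw [Int.le_ediv_iff_mul_le hmz]
        exact h9
    have h14 : ((v : ZMod m)).val * N / m = b.val := by exact_mod_cast h13
    rw [h14, ZMod.natCast_zmod_val]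
    exact hb
  · refine Set.eq_univ_of_forall fun y => ?_
    set σ := ∑ i, u i with hσ
    set r : ℤ := (2 * N * y.val - m * σ + m) / (2 * m) with hr
    have h2m : (0 : ℤ) < 2 * m := by positivity
    have h1 : 2 * (m : ℤ) * r ≤ 2 * N * y.val - m * σ + m := Int.mul_ediv_self_le h2m.ne'
    have h2 : (2 * N * y.val - m * σ + m : ℤ) < 2 * m * r + 2 * m :=
      Int.lt_mul_ediv_self_add h2m
    have hr' : ((r : ℤ) : ZMod N) ∈ im u B := by rw [hB]; trivial
    obtain ⟨b, hb, hbr⟩ := hr'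
    obtain ⟨k, hk⟩ : ∃ k : ℤ, ∑ i, u i * (b i).val = r + N * k := by
      have h3 : ((∑ i, u i * (b i).val : ℤ) : ZMod N) = ((r : ℤ) : ZMod N) := by
        rw [hbr]
        push_cast
        refine Finset.sum_congr rfl fun i _ => ?_
        rw [ZMod.natCast_zmod_val, zsmul_eq_mul]
      have h4 := (ZMod.intCast_eq_intCast_iff_dvd_sub _ _ N).mp h3.symm
      obtain ⟨k, hk⟩ := h4
      exact ⟨k, by linarith⟩
    set z : ℤ := y.val + m * k - ∑ i, u i * mid (b i) with hz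
    have hρ : |∑ i, u i * (((2 * (b i).val + 1) * m : ℤ) - 2 * N * mid (b i))| ≤ S * (2 * N) := by
      rw [← hS, Finset.sum_mul]
      refine (Finset.abs_sum_le_sum_abs _ _).trans (Finset.sum_le_sum fun i _ => ?_)
      rw [abs_mul]
      refine mul_le_mul_of_nonneg_left ?_ (abs_nonneg _)
      obtain ⟨h3, h4⟩ := hmid (b i)
      rw [abs_of_nonneg (by linarith)]
      linarith
    have hid : 2 * (N : ℤ) * z = (2 * N * y.val - m * σ - 2 * m * r) +
        ∑ i, u i * (((2 * (b i).val + 1) * m : ℤ) - 2 * N * mid (b i)) := by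
      have h3 : ∑ i, u i * (((2 * (b i).val + 1) * m : ℤ) - 2 * N * mid (b i)) =
          2 * m * (∑ i, u i * (b i).val) + m * σ - 2 * N * ∑ i, u i * mid (b i) := by
        rw [hσ, Finset.mul_sum, Finset.mul_sum, Finset.mul_sum, ← Finset.sum_add_distrib,
          ← Finset.sum_sub_distrib]
        refine Finset.sum_congr rfl fun i _ => ?_
        ring
      rw [h3, hk, hz]
      ring
    have hzb : |z| ≤ X + S := by
      obtain ⟨h3, h4⟩ := abs_le.mp hρ
      rw [abs_le]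
      constructor
      · by_contra hcon
        push Not at hcon
        have h5 : z + 1 ≤ -(X + S) := hcon
        have h6 : 2 * (N : ℤ) * (z + 1) ≤ 2 * N * (-(X + S)) :=
          mul_le_mul_of_nonneg_left h5 (by positivity)
        nlinarith
      · by_contra hcon
        push Not at hcon
        have h5 : X + S + 1 ≤ z := hcon
        have h6 : 2 * (N : ℤ) * (X + S + 1) ≤ 2 * N * z :=
          mul_le_mul_of_nonneg_left h5 (by positivity)
        nlinarith
    obtain ⟨τ, hτ, hτz⟩ := hcov z hzb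
    refine ⟨fun i => ((mid (b i) + τ i : ℤ) : ZMod m), ?_, ?_⟩
    · intro i
      rw [Finset.mem_coe, Finset.mem_image]
      refine ⟨(b i, τ i), ?_, rfl⟩
      rw [Finset.mem_product, Finset.mem_filter]
      exact ⟨⟨Finset.mem_univ _, hb i⟩, hτ i⟩
    · have h3 : ∑ i, u i * (mid (b i) + τ i) = y.val + m * k := by
        simp only [mul_add, Finset.sum_add_distrib]
        rw [hτz, hz]
        ring
      have h4 : ((∑ i, u i * (mid (b i) + τ i) : ℤ) : ZMod m) = y := by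
        rw [h3]
        push_cast
        rw [ZMod.natCast_zmod_val, ZMod.natCast_self, zero_mul, add_zero]
      rw [← h4]
      push_cast
      refine Finset.sum_congr rfl fun i _ => ?_
      rw [zsmul_eq_mul]
  · refine Finset.card_image_le.trans ?_
    rw [Finset.card_product]
    refine Nat.mul_le_mul_right _ ((Finset.card_filter_le _ _).trans ?_)
    rw [Finset.card_univ, ZMod.card]

/-- the total size of the coefficients is at least two -/
theorem two_le_sum {υ : Fin g → ℤ} (hυ : ∀ i, υ i ≠ 0)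
    (h0 : ∃ I : Finset (Fin g), I.Nonempty ∧ ∑ i ∈ I, υ i = 0) {d : ℤ} {u : Fin g → ℤ}
    (hdu : ∀ i, υ i = d * u i) {S : ℕ} (hS : ∑ i, |u i| = S) : 2 ≤ S := by
  classical
  have hu : ∀ i, u i ≠ 0 := fun i h => hυ i (by rw [hdu, h, mul_zero])
  obtain ⟨I, ⟨i, hi⟩, hI⟩ := h0
  have h1 : ∃ j, j ≠ i := by
    by_contra hcon
    push Not at hcon
    have h2 : ∑ j ∈ I, υ j = υ i := by
      rw [Finset.sum_eq_single i]
      · intro j _ hj
        exact absurd (hcon j) hj
      · intro h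
        exact absurd hi h
    exact hυ i (h2 ▸ hI)
  obtain ⟨j, hj⟩ := h1
  have h2 : |u i| + |u j| ≤ ∑ i, |u i| := by
    rw [← Finset.sum_pair (f := fun i => |u i|) (Ne.symm hj)]
    exact Finset.sum_le_sum_of_subset_of_nonneg (Finset.subset_univ _)
      fun _ _ _ => abs_nonneg _
  have h3 : 1 ≤ |u i| := Int.one_le_abs (hu i)
  have h4 : 1 ≤ |u j| := Int.one_le_abs (hu j)
  rw [hS] at h2
  omega

/-- multiplication by a unit does not matter -/
theorem im_scale {M : Type*} [AddCommGroup M] {υ u : Fin g → ℤ} {d : ℤ}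
    (hdu : ∀ i, υ i = d * u i) (A : Set M) (y : M) (hy : y ∈ im u A) : d • y ∈ im υ A := by
  obtain ⟨a, ha, rfl⟩ := hy
  refine ⟨a, ha, ?_⟩
  rw [Finset.smul_sum]
  refine Finset.sum_congr rfl fun i _ => ?_
  rw [hdu i, mul_smul]

theorem core {υ : Fin g → ℤ} {φ : Fin h → ℤ} (hg : 0 < g) (hυ : ∀ i, υ i ≠ 0)
    (h0 : ∃ I : Finset (Fin g), I.Nonempty ∧ ∑ i ∈ I, υ i = 0) {S : ℕ}
    (hS : ∑ i, |φ i| = S) {ε : ℝ} {N : ℕ} (hN : 0 < N) {B : Set (ZMod N)}
    (hB : im υ B = Set.univ) (hBφ : (2 * (2 * S + 1) : ℝ) * (im φ B).ncard < ε * N) :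
    ∃ C : ℝ, 0 < C ∧ ∀ m : ℕ, 0 < m → IsCoprime (Finset.univ.gcd υ) (m : ℤ) → ∀ n : ℕ,
      C * (m : ℝ) ^ (1 / (g : ℝ)) ≤ n → 2 * N * n ≤ B.ncard * m →
      ∃ A : Set (ZMod m), im υ A = Set.univ ∧ ((im φ A).ncard : ℝ) < ε * m ∧ A.ncard = n := by
  classical
  have hneN : NeZero N := ⟨hN.ne'⟩
  have hneg : Nonempty (Fin g) := ⟨⟨0, hg⟩⟩
  obtain ⟨u, hdu', hu1⟩ := Finset.extract_gcd υ (Finset.univ_nonempty (α := Fin g))
  have hdu : ∀ i, υ i = Finset.univ.gcd υ * u i := fun i => hdu' i (Finset.mem_univ i)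
  generalize Finset.univ.gcd υ = d at hdu ⊢
  have hu : ∀ i, u i ≠ 0 := fun i h => hυ i (by rw [hdu, h, mul_zero])
  obtain ⟨c, hc⟩ := Finset.gcd_eq_sum_mul Finset.univ u
  rw [hu1] at hc
  have hc' : ∑ i, u i * c i = 1 := hc.symm
  obtain ⟨T, hT⟩ : ∃ T : ℕ, ∑ i, |u i| = T :=
    ⟨(∑ i, |u i|).toNat, (Int.toNat_of_nonneg (Finset.sum_nonneg fun i _ => abs_nonneg _)).symm⟩
  have hT2 := two_le_sum hυ h0 hdu hT
  obtain ⟨C₁, X₀, hC1, hthin⟩ := thin hg hu hc' hT hT2
  -- `im u B` is everything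
  have hBu : im u B = Set.univ := by
    have h1 : (1 : ZMod N) ∈ im υ B := by rw [hB]; trivial
    obtain ⟨a, _, ha⟩ := h1
    have h2 : IsUnit ((d : ℤ) : ZMod N) := by
      refine IsUnit.of_mul_eq_one (∑ i, u i • a i) ?_
      rw [ha, Finset.mul_sum]
      refine Finset.sum_congr rfl fun i _ => ?_
      rw [hdu i, mul_smul, ← zsmul_eq_mul]
    refine Set.eq_univ_of_forall fun y => ?_
    have h3 : d • y ∈ im υ B := by rw [hB]; trivial
    obtain ⟨b, hb, hb'⟩ := h3
    refine ⟨b, hb, ?_⟩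
    apply h2.mul_left_cancel
    rw [← zsmul_eq_mul, hb', ← zsmul_eq_mul, Finset.smul_sum]
    refine Finset.sum_congr rfl fun i _ => ?_
    rw [hdu i, mul_smul]
  obtain ⟨m₀, hm₀⟩ : ∃ m₀ : ℕ, m₀ = 2 * N * (X₀ + 1) := ⟨_, rfl⟩
  refine ⟨N * C₁ + m₀, by positivity, fun m hm hcop n hn1 hn2 => ?_⟩
  have hnem : NeZero m := ⟨hm.ne'⟩
  have hmR : (1 : ℝ) ≤ m := by exact_mod_cast hm
  have hgR : (0 : ℝ) < 1 / (g : ℝ) := by positivity
  have hm1 : (1 : ℝ) ≤ (m : ℝ) ^ (1 / (g : ℝ)) := Real.one_le_rpow hmR hgR.le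
  have hBN : B.ncard ≤ N := by
    have h1 : B.ncard ≤ (Set.univ : Set (ZMod N)).ncard :=
      Set.ncard_le_ncard (Set.subset_univ _) (Set.toFinite _)
    rwa [Set.ncard_univ, Nat.card_zmod] at h1
  -- `m` is large
  have hmlarge : m₀ ≤ m := by
    by_contra hcon
    push Not at hcon
    have h1 : n ≤ m := by
      have h2 : N * (2 * n) ≤ N * m := by
        calc N * (2 * n) = 2 * N * n := by ring
          _ ≤ B.ncard * m := hn2
          _ ≤ N * m := Nat.mul_le_mul_right _ hBN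
      have := Nat.le_of_mul_le_mul_left h2 hN
      omega
    have h2 : (m₀ : ℝ) ≤ n := by
      have h3 : (0 : ℝ) ≤ N * C₁ := by positivity
      have h4 : (N * C₁ + m₀ : ℝ) * 1 ≤ (N * C₁ + m₀) * (m : ℝ) ^ (1 / (g : ℝ)) :=
        mul_le_mul_of_nonneg_left hm1 (by positivity)
      linarith
    have h3 : m₀ ≤ n := by exact_mod_cast h2
    omega
  obtain ⟨X, hX⟩ : ∃ X : ℕ, X = m / (2 * N) := ⟨_, rfl⟩
  have hX0 : X₀ ≤ X := by
    rw [hX, Nat.le_div_iff_mul_le (by omega)]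
    calc X₀ * (2 * N) ≤ 2 * N * (X₀ + 1) := by ring_nf; omega
      _ ≤ m := hm₀ ▸ hmlarge
  obtain ⟨Θ, hΘ1, hΘ2, hΘ3⟩ := hthin X hX0
  obtain ⟨A₀, hA1, hA2, hA3⟩ := thin_blocks hN hm hT hBu hX hΘ2 hΘ3
  -- `A₀` is small
  have hA0n : A₀.card ≤ n := by
    have h1 : (A₀.card : ℝ) ≤ N * (C₁ * (X : ℝ) ^ (1 / (g : ℝ))) := by
      calc (A₀.card : ℝ) ≤ N * Θ.card := by exact_mod_cast hA3
        _ ≤ N * (C₁ * (X : ℝ) ^ (1 / (g : ℝ))) := mul_le_mul_of_nonneg_left hΘ1 (by positivity)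
    have h2 : (X : ℝ) ^ (1 / (g : ℝ)) ≤ (m : ℝ) ^ (1 / (g : ℝ)) := by
      apply Real.rpow_le_rpow (by positivity) ?_ hgR.le
      have : X ≤ m := by rw [hX]; exact Nat.div_le_self _ _
      exact_mod_cast this
    have h3 : (A₀.card : ℝ) ≤ n := by
      have h4 : (0 : ℝ) ≤ N * C₁ := by positivity
      have h5 : (N * C₁ : ℝ) * (X : ℝ) ^ (1 / (g : ℝ)) ≤ N * C₁ * (m : ℝ) ^ (1 / (g : ℝ)) :=
        mul_le_mul_of_nonneg_left h2 h4
      have h6 : (0 : ℝ) ≤ m₀ * (m : ℝ) ^ (1 / (g : ℝ)) := by positivity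
      nlinarith
    exact_mod_cast h3
  -- the blocks are large
  have hNm : N ≤ m := by
    have : N ≤ 2 * N * (X₀ + 1) := by nlinarith
    omega
  have hbig : n ≤ (blockSet N m B).ncard := by
    refine le_trans ?_ (le_blockSet hN hm B)
    have h1 : m < (m / N + 1) * N := Nat.lt_mul_of_div_lt (Nat.lt_succ_self _) hN
    have h2 : 1 ≤ m / N := (Nat.le_div_iff_mul_le hN).mpr (by omega)
    have h3 : m ≤ 2 * N * (m / N) := by nlinarith
    have h4 : 2 * N * n ≤ 2 * N * (B.ncard * (m / N)) := by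
      calc 2 * N * n ≤ B.ncard * m := hn2
        _ ≤ B.ncard * (2 * N * (m / N)) := Nat.mul_le_mul_left _ h3
        _ = 2 * N * (B.ncard * (m / N)) := by ring
    exact Nat.le_of_mul_le_mul_left h4 (by omega)
  have hfin : (blockSet N m B).Finite := Set.toFinite _
  obtain ⟨A, hA4, hA5, hA6⟩ := Finset.exists_subsuperset_card_eq (s := A₀) (t := hfin.toFinset)
    (n := n) (by
      intro x hx
      rw [Set.Finite.mem_toFinset]
      exact hA1 (Finset.mem_coe.mpr hx)) hA0n (by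
      rw [← Set.ncard_eq_toFinset_card _ hfin]
      exact hbig)
  have hAsub : (A : Set (ZMod m)) ⊆ blockSet N m B := by
    intro x hx
    have := hA5 (Finset.mem_coe.mp hx)
    rwa [Set.Finite.mem_toFinset] at this
  refine ⟨A, ?_, ?_, ?_⟩
  · refine Set.eq_univ_of_forall fun y => ?_
    obtain ⟨a, b, hab⟩ := hcop
    have h1 : y = d • (a • y) := by
      rw [smul_smul]
      have h2 : d * a = 1 - b * m := by linarith
      rw [h2, sub_smul, one_smul, mul_smul]
      have h3 : (m : ℤ) • y = 0 := by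
        rw [zsmul_eq_mul, Int.cast_natCast, ZMod.natCast_self, zero_mul]
      rw [h3, smul_zero, sub_zero]
    rw [h1]
    refine im_scale hdu _ _ ?_
    have h2 : a • y ∈ im u (A₀ : Set (ZMod m)) := by rw [hA2]; trivial
    exact im_mono u (fun x hx => hA4 (Finset.mem_coe.mp hx)) h2
  · have h1 : (im φ (A : Set (ZMod m))).ncard ≤ (im φ B).ncard * (2 * S + 1) * (m / N + 1) :=
      (Set.ncard_le_ncard (im_mono φ hAsub) (Set.toFinite _)).trans (im_blockSet hN hm hS B)
    have h2 : ((m / N + 1 : ℕ) : ℝ) * N ≤ 2 * m := by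
      have h3 : (m / N + 1) * N ≤ 2 * m := by
        have := Nat.div_mul_le_self m N
        have h4 : (m / N + 1) * N = m / N * N + N := by ring
        omega
      exact_mod_cast h3
    have hNR : (0 : ℝ) < N := by exact_mod_cast hN
    have h3 : ((im φ (A : Set (ZMod m))).ncard : ℝ) * N ≤
        (im φ B).ncard * (2 * S + 1) * (2 * m) := by
      calc ((im φ (A : Set (ZMod m))).ncard : ℝ) * N
          ≤ ((im φ B).ncard * (2 * S + 1) * (m / N + 1 : ℕ) : ℝ) * N := by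
            refine mul_le_mul_of_nonneg_right ?_ hNR.le
            exact_mod_cast h1
        _ = (im φ B).ncard * (2 * S + 1) * ((m / N + 1 : ℕ) * N) := by ring
        _ ≤ (im φ B).ncard * (2 * S + 1) * (2 * m) :=
            mul_le_mul_of_nonneg_left h2 (by positivity)
    have h4 : ((im φ (A : Set (ZMod m))).ncard : ℝ) * N < (ε * m) * N := by
      refine h3.trans_lt ?_
      have : (0 : ℝ) < m := by linarith
      calc ((im φ B).ncard * (2 * S + 1) * (2 * m) : ℝ) =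
          (2 * (2 * S + 1) * (im φ B).ncard) * m := by ring
        _ < (ε * N) * m := mul_lt_mul_of_pos_right hBφ this
        _ = (ε * m) * N := by ring
    exact lt_of_mul_lt_mul_right h4 hNR.le
  · rw [Set.ncard_coe_finset]
    exact hA6

end Pool.Agent.H82.SZ
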