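import Pool.Agent.H82.SZ.Core

/-!
# Dense sets modulo a fixed number
-/

set_option autoImplicit false

namespace Pool.Agent.H82.SZ

open Finset Filter Topology Pool.Agent.H73.HR

variable {g h : ℕ}

theorem eventually_dense {υ : Fin g → ℤ} {φ : Fin h → ℤ} (hh : 0 < h) (hυ : ∀ i, υ i ≠ 0)
    (hφ0 : ∀ i, φ i ≠ 0) (i₀ : Fin g) (A₀ : Finset ℤ)
    (hlt : (im φ (A₀ : Set ℤ)).ncard < (im υ (A₀ : Set ℤ)).ncard) {c : ℝ}
    (hc : Real.log ((im υ (A₀ : Set ℤ)).ncard / A₀.card) /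
      Real.log ((im υ (A₀ : Set ℤ)).ncard / (im φ (A₀ : Set ℤ)).ncard) < c) (S : ℕ) :
    ∀ᶠ ε : ℝ in 𝓝[>] 0, ∃ (N : ℕ) (B : Set (ZMod N)), 0 < N ∧ im υ B = Set.univ ∧
      (2 * (2 * S + 1) : ℝ) * (im φ B).ncard < ε * N ∧ 2 * ε ^ c * N ≤ B.ncard := by
  have hg : 0 < g := i₀.pos
  obtain ⟨hN0, hN02⟩ := sizes hg hh hφ0 A₀ hlt
  obtain ⟨hρ, hαρ⟩ := one_le_ratio hg hh hφ0 A₀ hlt
  have hA0ne : A₀.Nonempty := Finset.card_pos.mp hN0
  obtain ⟨D₁, hD₁⟩ := exists_sep υ A₀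
  obtain ⟨D₂, hD₂⟩ : ∃ D : ℕ, ∀ x ∈ A₀, ∀ y ∈ A₀, (x - y).natAbs ≤ D := by
    refine ⟨∑ q ∈ A₀ ×ˢ A₀, (q.1 - q.2).natAbs, fun x hx y hy => ?_⟩
    exact Finset.single_le_sum (f := fun q : ℤ × ℤ => (q.1 - q.2).natAbs)
      (fun _ _ => Nat.zero_le _) (Finset.mem_product.mpr ⟨hx, hy⟩ : (x, y) ∈ A₀ ×ˢ A₀)
  obtain ⟨D, hD⟩ : ∃ D, D = max D₁ D₂ := ⟨_, rfl⟩
  obtain ⟨M, hM⟩ : ∃ M, M = (υ i₀).natAbs := ⟨_, rfl⟩
  have hprime := fun k p (h1 : 0 < p) (h2 : IsUnit ((υ i₀ : ℤ) : ZMod p)) =>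
    gen_prop2 (υ := υ) (φ := φ) (k := k) (p := p) h1 h2
      (fun x hx y hy => (hD₁ x hx y hy).trans (hD ▸ le_max_left _ _))
      (fun x hx y hy => (hD₂ x hx y hy).trans (hD ▸ le_max_right _ _)) hA0ne
  have hlt1 : A₀.card < (im υ (A₀ : Set ℤ)).ncard := by omega
  generalize hN1' : (im υ (A₀ : Set ℤ)).ncard = N1 at *
  generalize hN2' : (im φ (A₀ : Set ℤ)).ncard = N2 at *
  generalize hN0' : A₀.card = N0 at *
  have hN0R : (1 : ℝ) ≤ N0 := by exact_mod_cast hN0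
  have hN2R : (1 : ℝ) ≤ N2 := by exact_mod_cast (by omega : 1 ≤ N2)
  have hN1R : (2 : ℝ) ≤ N1 := by exact_mod_cast (by omega : 2 ≤ N1)
  rw [Real.log_div (by linarith) (by linarith)] at hρ
  rw [Real.log_div (by linarith) (by linarith), Real.log_div (by linarith) (by linarith)] at hαρ hc
  set ρ := Real.log N1 - Real.log N2 with hρdef
  set α := Real.log N1 - Real.log N0 with hαdef
  have hα : 0 < α := by linarith
  rw [div_lt_iff₀ hρ] at hc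
  have hc0 : 0 < c := by
    by_contra hcon
    push Not at hcon
    nlinarith
  obtain ⟨β, hβ1, hβ2⟩ := exists_between (show 1 / ρ < c / α by
    rw [div_lt_div_iff₀ hρ hα]
    linarith)
  have hβpos : 0 < β := lt_trans (by positivity) hβ1
  rw [div_lt_iff₀ hρ] at hβ1
  rw [lt_div_iff₀ hα] at hβ2
  set γ : ℝ := ρ - 1 / β with hγ
  have hγpos : 0 < γ := by
    rw [hγ, sub_pos, div_lt_iff₀ hβpos]
    linarith
  have hk : Tendsto (fun ε : ℝ => ⌈β * Real.log (1 / ε)⌉₊) (𝓝[>] 0) atTop :=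
    tendsto_nat_ceil_atTop.comp (tendsto_x.const_mul_atTop hβpos)
  set Z : ℝ := (2 * (D : ℝ) + 2) * ((N1 : ℝ) + 2) with hZ
  have hZ0 : 0 < Z := by positivity
  have hE1 : ∀ᶠ k : ℕ in atTop, 4 * (2 * (S : ℝ) + 1) * Z ^ h * (k : ℝ) ^ h < Real.exp γ ^ k := by
    have h2 := tendsto_pow_const_div_const_pow_of_one_lt h (Real.one_lt_exp_iff.mpr hγpos)
    have h3 := h2.eventually (gt_mem_nhds (show (0 : ℝ) < 1 / (4 * (2 * (S : ℝ) + 1) * Z ^ h) by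
      positivity))
    filter_upwards [h3] with k hk
    rw [div_lt_div_iff₀ (by positivity) (by positivity), one_mul] at hk
    linarith
  have hE2 : ∀ᶠ k : ℕ in atTop, 2 * (M + 1) ≤ N1 ^ k :=
    (tendsto_pow_atTop_atTop_of_one_lt (by omega : 1 < N1)).eventually_ge_atTop _
  have hE3 : ∀ᶠ k : ℕ in atTop, 1 ≤ k := eventually_ge_atTop 1
  have hE7 : ∀ᶠ k : ℕ in atTop, 2 * N0 ^ k + 2 ≤ N1 ^ k := by
    have h1 : Tendsto (fun k : ℕ => ((N1 : ℝ) / N0) ^ k) atTop atTop := by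
      apply tendsto_pow_atTop_atTop_of_one_lt
      rw [lt_div_iff₀ (by linarith), one_mul]
      exact_mod_cast hlt1
    filter_upwards [h1.eventually_ge_atTop 4] with k hk
    rw [div_pow, le_div_iff₀ (by positivity)] at hk
    have h2 : 4 * N0 ^ k ≤ N1 ^ k := by exact_mod_cast hk
    have h3 : 1 ≤ N0 ^ k := Nat.one_le_pow _ _ hN0
    omega
  have hE8 : ∀ᶠ ε : ℝ in 𝓝[>] 0, Real.log (4 * (D + 1)) + α ≤ (c - β * α) * Real.log (1 / ε) :=
    (tendsto_x.const_mul_atTop (show 0 < c - β * α by linarith)).eventually_ge_atTop _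
  have hE5 : ∀ᶠ ε : ℝ in 𝓝[>] 0, 0 ≤ Real.log (1 / ε) := tendsto_x.eventually_ge_atTop _
  have hE6 : ∀ᶠ ε : ℝ in 𝓝[>] 0, 0 < ε := eventually_mem_nhdsWithin
  filter_upwards [hk.eventually hE1, hk.eventually hE2, hk.eventually hE3, hk.eventually hE7,
    hE8, hE5, hE6] with ε e1 e2 e3 e7 e8 e5 e6
  set x : ℝ := Real.log (1 / ε) with hx
  set k : ℕ := ⌈β * x⌉₊ with hkdef
  have hkx : β * x ≤ k := Nat.le_ceil _
  have hkx' : (k : ℝ) < β * x + 1 := Nat.ceil_lt_add_one (by positivity)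
  have hεx : ε = Real.exp (-x) := by
    rw [hx, one_div, Real.log_inv, neg_neg, Real.exp_log e6]
  -- the prime
  obtain ⟨p, hp, hp1, hp2⟩ := Nat.exists_prime_lt_and_le_two_mul (N1 ^ k / 2) (by omega)
  have hpk : p ≤ N1 ^ k := by omega
  have hpM : M < p := by omega
  have hp3 : N1 ^ k ≤ 2 * p := by omega
  have hp4 : N0 ^ k ≤ p := by omega
  obtain ⟨B, hB1, hB2, hB3⟩ := hprime k p hp.pos (isUnit_of_prime (hυ i₀) hp (hM ▸ hpM)) hpk hp4
  have hlog : (2 * D + 2) * (Nat.log 2 p + 1) + 1 ≤ ((2 * D + 2) * (N1 + 2)) * k := by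
    have h4 : Nat.log 2 p ≤ N1 * k := by
      have h5 : p ≤ 2 ^ (N1 * k) := by
        rw [pow_mul]
        exact hpk.trans (Nat.pow_le_pow_left Nat.lt_two_pow_self.le k)
      calc Nat.log 2 p ≤ Nat.log 2 (2 ^ (N1 * k)) := Nat.log_mono_right h5
        _ = N1 * k := Nat.log_pow (by norm_num) _
    have h6 : (2 * D + 2) * (Nat.log 2 p + 1) ≤ (2 * D + 2) * (N1 * k + 1) :=
      Nat.mul_le_mul_left _ (by omega)
    have h7 : (2 * D + 2) * 1 ≤ (2 * D + 2) * k := Nat.mul_le_mul_left _ e3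
    have h8 : ((2 * D + 2) * (N1 + 2)) * k =
      (2 * D + 2) * (N1 * k) + (2 * D + 2) * k + (2 * D + 2) * k := by ring
    have h9 : (2 * D + 2) * (N1 * k + 1) = (2 * D + 2) * (N1 * k) + (2 * D + 2) * 1 := by ring
    omega
  have h8 : (N1 : ℝ) ^ k ≤ 2 * p := by exact_mod_cast hp3
  have h8' : (p : ℝ) ≤ (N1 : ℝ) ^ k := by exact_mod_cast hpk
  have h10 : (N1 : ℝ) ^ k = Real.exp (k * Real.log N1) := by
    rw [mul_comm, Real.exp_mul, Real.exp_log (by linarith), Real.rpow_natCast]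
  refine ⟨p, B, hp.pos, hB1, ?_, ?_⟩
  · have h6 : ((im φ B).ncard : ℝ) ≤ (N2 : ℝ) ^ k * (Z * k) ^ h := by
      have h7 : (im φ B).ncard ≤ N2 ^ k * (((2 * D + 2) * (N1 + 2)) * k) ^ h :=
        hB2.trans (Nat.mul_le_mul_left _ (Nat.pow_le_pow_left hlog h))
      rw [hZ]
      exact_mod_cast h7
    have h9 : Real.exp γ ^ k * (N2 : ℝ) ^ k ≤ ε * (N1 : ℝ) ^ k := by
      have h11 : (N2 : ℝ) ^ k = Real.exp (k * Real.log N2) := by
        rw [mul_comm, Real.exp_mul, Real.exp_log (by linarith), Real.rpow_natCast]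
      have h12 : Real.exp γ ^ k = Real.exp (k * γ) := by
        rw [mul_comm, Real.exp_mul, Real.rpow_natCast]
      rw [h10, h11, h12, hεx, ← Real.exp_add, ← Real.exp_add]
      apply Real.exp_le_exp.mpr
      have h13 : x ≤ k / β := by
        rw [le_div_iff₀ hβpos]
        linarith
      rw [hγ, hρdef]
      have h14 : (k : ℝ) * ((Real.log N1 - Real.log N2) - 1 / β) + k * Real.log N2 =
          k * Real.log N1 - k / β := by ring
      rw [h14]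
      linarith
    have hN2k : (0 : ℝ) < (N2 : ℝ) ^ k := by positivity
    calc (2 * (2 * S + 1) : ℝ) * (im φ B).ncard
        ≤ (2 * (2 * S + 1) : ℝ) * ((N2 : ℝ) ^ k * (Z * k) ^ h) :=
          mul_le_mul_of_nonneg_left h6 (by positivity)
      _ = (N2 : ℝ) ^ k * (4 * (2 * S + 1) * Z ^ h * (k : ℝ) ^ h) / 2 := by
          rw [mul_pow Z (k : ℝ)]; ring
      _ < (N2 : ℝ) ^ k * Real.exp γ ^ k / 2 := by
          have := mul_lt_mul_of_pos_left e1 hN2k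
          linarith
      _ ≤ ε * (N1 : ℝ) ^ k / 2 := by linarith
      _ ≤ ε * p := by
          have := mul_le_mul_of_nonneg_left h8 e6.le
          linarith
  · have h15 : ((N0 : ℝ) ^ k) ≤ 2 * (D + 1) * B.ncard := by exact_mod_cast hB3
    have h16 : 4 * (D + 1) * (ε ^ c * (N1 : ℝ) ^ k) ≤ (N0 : ℝ) ^ k := by
      have h17 : (N0 : ℝ) ^ k = Real.exp (k * Real.log N0) := by
        rw [mul_comm, Real.exp_mul, Real.exp_log (by linarith), Real.rpow_natCast]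
      have h18 : ε ^ c = Real.exp (-x * c) := by
        rw [hεx, ← Real.exp_mul]
      have h19 : (4 * ((D : ℝ) + 1)) = Real.exp (Real.log (4 * (D + 1))) :=
        (Real.exp_log (by positivity)).symm
      rw [h10, h17, h18, h19, ← Real.exp_add, ← Real.exp_add]
      apply Real.exp_le_exp.mpr
      have h20 : (k : ℝ) * α ≤ (β * x + 1) * α := mul_le_mul_of_nonneg_right hkx'.le hα.le
      rw [hαdef] at h20
      nlinarith
    have h17 : ε ^ c * p ≤ ε ^ c * (N1 : ℝ) ^ k :=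
      mul_le_mul_of_nonneg_left h8' (Real.rpow_nonneg e6.le _)
    have hD0 : (0 : ℝ) < 2 * (D + 1) := by positivity
    have h18 : (2 * ((D : ℝ) + 1)) * (2 * ε ^ c * p) ≤ (2 * (D + 1)) * B.ncard := by
      nlinarith
    exact le_of_mul_le_mul_left h18 hD0

/-- the lower bound for the largest sizes -/
theorem exists_dense {υ : Fin g → ℤ} {φ : Fin h → ℤ} (hh : 0 < h) (hυ : ∀ i, υ i ≠ 0)
    (hφ0 : ∀ i, φ i ≠ 0)
    (h0 : ∃ I : Finset (Fin g), I.Nonempty ∧ ∑ i ∈ I, υ i = 0)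
    (hφ : ∀ J : Finset (Fin h), J.Nonempty → ∑ j ∈ J, φ j ≠ 0) {δ : ℝ} (hδ : 0 < δ) (S : ℕ) :
    ∃ ε₀ : ℝ, 0 < ε₀ ∧ ∀ ε : ℝ, 0 < ε → ε < ε₀ →
      ∃ (N : ℕ) (B : Set (ZMod N)), 0 < N ∧ im υ B = Set.univ ∧
      (2 * (2 * S + 1) : ℝ) * (im φ B).ncard < ε * N ∧ 2 * ε ^ (lam υ φ + δ) * N ≤ B.ncard := by
  have hg : 0 < g := by
    obtain ⟨I, ⟨i, _⟩, _⟩ := h0
    exact i.pos
  obtain ⟨r, ⟨A, hA, rfl⟩, hr⟩ := exists_lt_of_csInf_lt (lam_nonempty hh hυ h0 hφ)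
    (show lam υ φ < lam υ φ + δ by linarith)
  have h1 := eventually_dense hh hυ hφ0 ⟨0, hg⟩ A hA hr S
  rw [eventually_nhdsWithin_iff, Metric.eventually_nhds_iff] at h1
  obtain ⟨ε₀, hε₀, h2⟩ := h1
  refine ⟨ε₀, hε₀, fun ε h3 h4 => h2 ?_ h3⟩
  rw [Real.dist_eq, sub_zero, abs_of_pos h3]
  exact h4

end Pool.Agent.H82.SZ
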