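import Pool.Agent.H82.SZ.Lam

/-!
# A random homomorphism for two sets
-/

set_option autoImplicit false

namespace Pool.Agent.H82.SZ

open Finset Pool.Agent.H73.HR

variable {g h : ℕ}

/-- the number of collisions in `X` under the homomorphism `c` -/
noncomputable def cnt {k p : ℕ} (X : Finset (Fin k → ℤ)) (c : Fin k → ZMod p) : ℕ := by
  classical
  exact ((X ×ˢ X).filter fun q => hom c q.1 = hom c q.2).card

theorem sum_cnt {k p D : ℕ} [NeZero p] (X : Finset (Fin k → ℤ))
    (hsep : ∀ x ∈ X, ∀ y ∈ X, ∀ j, (x j - y j).natAbs ≤ D) :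
    ∑ c : Fin k → ZMod p, p * cnt X c ≤ p ^ k * (p * X.card + D * X.card ^ 2) := by
  classical
  have h1 : ∑ c : Fin k → ZMod p, p * cnt X c = ∑ q ∈ X ×ˢ X,
      p * (Finset.univ.filter fun c : Fin k → ZMod p => hom c q.1 = hom c q.2).card := by
    simp only [cnt, Finset.card_filter, Finset.mul_sum]
    rw [Finset.sum_comm]
  have h2 : ∀ q ∈ X ×ˢ X,
      p * (Finset.univ.filter fun c : Fin k → ZMod p => hom c q.1 = hom c q.2).card ≤
        (if q.1 = q.2 then p * p ^ k else 0) + D * p ^ k := by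
    intro q hq
    rw [Finset.mem_product] at hq
    by_cases h : q.1 = q.2
    · rw [if_pos h]
      refine le_trans (Nat.mul_le_mul_left p (Finset.card_filter_le _ _)) ?_
      rw [Finset.card_univ, Fintype.card_fun, ZMod.card, Fintype.card_fin]
      exact Nat.le_add_right _ _
    · rw [if_neg h, zero_add]
      obtain ⟨i₀, hi₀⟩ := Function.ne_iff.mp h
      refine le_trans (le_of_eq ?_) (count_zero (v := fun j => q.1 j - q.2 j) (i₀ := i₀)
        (sub_ne_zero.mpr hi₀) (hsep _ hq.1 _ hq.2 i₀))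
      congr 2
      ext c
      simp only [Finset.mem_filter, Finset.mem_univ, true_and]
      rw [← sub_eq_zero, hom, hom, ← Finset.sum_sub_distrib]
      refine Eq.congr (Finset.sum_congr rfl fun j _ => ?_) rfl
      push_cast
      ring
  rw [h1]
  refine (Finset.sum_le_sum h2).trans ?_
  rw [Finset.sum_add_distrib, Finset.sum_const, Finset.card_product, Finset.sum_product]
  have h3 : ∑ x ∈ X, ∑ y ∈ X, (if x = y then p * p ^ k else 0) = X.card * (p * p ^ k) := by
    have h4 : ∀ x ∈ X, ∑ y ∈ X, (if x = y then p * p ^ k else 0) = p * p ^ k := by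
      intro x hx
      rw [Finset.sum_ite_eq X x, if_pos hx]
    rw [Finset.sum_congr rfl h4, Finset.sum_const, smul_eq_mul]
  rw [h3]
  simp only [smul_eq_mul]
  exact le_of_eq (by ring)

theorem card_sq_le {k p : ℕ} (X : Finset (Fin k → ℤ)) (c : Fin k → ZMod p) :
    X.card ^ 2 ≤ (X.image (hom c)).card * cnt X c := by
  classical
  set Y := X.image (hom c) with hY
  have h6 : X.card = ∑ y ∈ Y, (X.filter fun x => hom c x = y).card :=
    Finset.card_eq_sum_card_fiberwise fun x hx =>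
      Finset.mem_coe.mpr (Finset.mem_image_of_mem _ (Finset.mem_coe.mp hx))
  have h7 : cnt X c = ∑ y ∈ Y, (X.filter fun x => hom c x = y).card ^ 2 := by
    have h8 : cnt X c = ∑ y ∈ Y, (((X ×ˢ X).filter fun q => hom c q.1 = hom c q.2).filter
        fun q => hom c q.1 = y).card := by
      have : cnt X c = ((X ×ˢ X).filter fun q => hom c q.1 = hom c q.2).card := by
        unfold cnt
        congr
      rw [this]
      exact Finset.card_eq_sum_card_fiberwise fun q hq => by
        rw [Finset.mem_coe, Finset.mem_filter, Finset.mem_product] at hq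
        exact Finset.mem_coe.mpr (Finset.mem_image_of_mem _ hq.1.1)
    rw [h8]
    refine Finset.sum_congr rfl fun y _ => ?_
    rw [sq, ← Finset.card_product]
    congr 1
    ext q
    simp only [Finset.mem_filter, Finset.mem_product]
    constructor
    · rintro ⟨⟨⟨h1, h2⟩, h3⟩, h4⟩
      exact ⟨⟨h1, h4⟩, h2, h3 ▸ h4⟩
    · rintro ⟨⟨h1, h4⟩, h2, h5⟩
      exact ⟨⟨⟨h1, h2⟩, h4.trans h5.symm⟩, h4⟩
  rw [h6, h7]
  exact_mod_cast sq_sum_le_card_mul_sum_sq (s := Y)
    (f := fun y => ((X.filter fun x => hom c x = y).card : ℤ))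

/-- one homomorphism which is good for two sets -/
theorem exists_hom2 {k p D : ℕ} [NeZero p] (X Y : Finset (Fin k → ℤ))
    (hX : ∀ x ∈ X, ∀ y ∈ X, ∀ j, (x j - y j).natAbs ≤ D)
    (hY : ∀ x ∈ Y, ∀ y ∈ Y, ∀ j, (x j - y j).natAbs ≤ D)
    (hXp : p ≤ X.card) (hYp : Y.card ≤ p) (hY0 : 0 < Y.card) :
    ∃ c : Fin k → ZMod p, p ≤ 2 * (D + 1) * (X.image (hom c)).card ∧
      Y.card ≤ 2 * (D + 1) * (Y.image (hom c)).card := by
  classical
  have hp : 0 < p := Nat.pos_of_ne_zero (NeZero.ne p)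
  have hX0 : 0 < X.card := by omega
  have s1 := sum_cnt (p := p) X hX
  have s2 := sum_cnt (p := p) Y hY
  have s1' : ∑ c : Fin k → ZMod p, p * cnt X c ≤ p ^ k * ((D + 1) * X.card ^ 2) := by
    refine s1.trans (Nat.mul_le_mul_left _ ?_)
    nlinarith
  have s2' : ∑ c : Fin k → ZMod p, cnt Y c ≤ p ^ k * ((D + 1) * Y.card) := by
    rw [← Finset.mul_sum] at s2
    have h1 : p * ∑ c : Fin k → ZMod p, cnt Y c ≤ p * (p ^ k * ((D + 1) * Y.card)) := by
      refine s2.trans ?_
      have h2 : p * Y.card + D * Y.card ^ 2 ≤ p * ((D + 1) * Y.card) := by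
        have h3 : D * (Y.card * Y.card) ≤ D * (p * Y.card) :=
          Nat.mul_le_mul_left _ (Nat.mul_le_mul_right _ hYp)
        calc p * Y.card + D * Y.card ^ 2 = p * Y.card + D * (Y.card * Y.card) := by ring
          _ ≤ p * Y.card + D * (p * Y.card) := Nat.add_le_add_left h3 _
          _ = p * ((D + 1) * Y.card) := by ring
      calc p ^ k * (p * Y.card + D * Y.card ^ 2) ≤ p ^ k * (p * ((D + 1) * Y.card)) :=
            Nat.mul_le_mul_left _ h2
        _ = p * (p ^ k * ((D + 1) * Y.card)) := by ring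
    exact Nat.le_of_mul_le_mul_left h1 hp
  have hsum : ∑ c : Fin k → ZMod p, (Y.card * (p * cnt X c) + X.card ^ 2 * cnt Y c) ≤
      ∑ _c : Fin k → ZMod p, 2 * (D + 1) * X.card ^ 2 * Y.card := by
    have e1 : ∑ c : Fin k → ZMod p, (Y.card * (p * cnt X c) + X.card ^ 2 * cnt Y c) =
        Y.card * ∑ c : Fin k → ZMod p, p * cnt X c +
          X.card ^ 2 * ∑ c : Fin k → ZMod p, cnt Y c := by
      rw [Finset.sum_add_distrib, Finset.mul_sum, Finset.mul_sum]
    rw [e1, Finset.sum_const,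
      Finset.card_univ, Fintype.card_fun, ZMod.card, Fintype.card_fin, smul_eq_mul]
    calc Y.card * ∑ c : Fin k → ZMod p, p * cnt X c + X.card ^ 2 * ∑ c : Fin k → ZMod p, cnt Y c
        ≤ Y.card * (p ^ k * ((D + 1) * X.card ^ 2)) +
          X.card ^ 2 * (p ^ k * ((D + 1) * Y.card)) :=
          Nat.add_le_add (Nat.mul_le_mul_left _ s1') (Nat.mul_le_mul_left _ s2')
      _ = p ^ k * (2 * (D + 1) * X.card ^ 2 * Y.card) := by ring
  obtain ⟨c, _, hc⟩ := Finset.exists_le_of_sum_le Finset.univ_nonempty hsum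
  have hX2 : 0 < X.card ^ 2 := by positivity
  refine ⟨c, ?_, ?_⟩
  · have h1 : p * cnt X c ≤ 2 * (D + 1) * X.card ^ 2 := by
      have h2 : Y.card * (p * cnt X c) ≤ Y.card * (2 * (D + 1) * X.card ^ 2) := by
        calc Y.card * (p * cnt X c) ≤ 2 * (D + 1) * X.card ^ 2 * Y.card := by omega
          _ = _ := by ring
      exact Nat.le_of_mul_le_mul_left h2 hY0
    have h3 := card_sq_le X c
    have h4 : p * X.card ^ 2 ≤ 2 * (D + 1) * (X.image (hom c)).card * X.card ^ 2 := by
      calc p * X.card ^ 2 ≤ p * ((X.image (hom c)).card * cnt X c) := Nat.mul_le_mul_left _ h3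
        _ = (X.image (hom c)).card * (p * cnt X c) := by ring
        _ ≤ (X.image (hom c)).card * (2 * (D + 1) * X.card ^ 2) := Nat.mul_le_mul_left _ h1
        _ = _ := by ring
    exact Nat.le_of_mul_le_mul_right h4 hX2
  · have h1 : cnt Y c ≤ 2 * (D + 1) * Y.card := by
      have h2 : X.card ^ 2 * cnt Y c ≤ X.card ^ 2 * (2 * (D + 1) * Y.card) := by
        calc X.card ^ 2 * cnt Y c ≤ 2 * (D + 1) * X.card ^ 2 * Y.card := by omega
          _ = _ := by ring
      exact Nat.le_of_mul_le_mul_left h2 hX2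
    have h3 := card_sq_le Y c
    have h4 : Y.card * Y.card ≤ 2 * (D + 1) * (Y.image (hom c)).card * Y.card := by
      calc Y.card * Y.card = Y.card ^ 2 := by ring
        _ ≤ (Y.image (hom c)).card * cnt Y c := h3
        _ ≤ (Y.image (hom c)).card * (2 * (D + 1) * Y.card) := Nat.mul_le_mul_left _ h1
        _ = _ := by ring
    exact Nat.le_of_mul_le_mul_right h4 hY0

/-- the construction modulo `p`, with a lower bound for the size -/
theorem gen_prop2 {υ : Fin g → ℤ} {φ : Fin h → ℤ} {i₀ : Fin g} {A₀ : Finset ℤ} {k p D : ℕ}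
    (hp : 0 < p) (hυp : IsUnit ((υ i₀ : ℤ) : ZMod p))
    (hsep : ∀ x ∈ im υ (A₀ : Set ℤ), ∀ y ∈ im υ (A₀ : Set ℤ), (x - y).natAbs ≤ D)
    (hsep' : ∀ x ∈ A₀, ∀ y ∈ A₀, (x - y).natAbs ≤ D) (hA0 : A₀.Nonempty)
    (hpk : p ≤ (im υ (A₀ : Set ℤ)).ncard ^ k) (hak : A₀.card ^ k ≤ p) :
    ∃ B : Set (ZMod p), im υ B = Set.univ ∧
      (im φ B).ncard ≤ (im φ (A₀ : Set ℤ)).ncard ^ k *
        ((2 * D + 2) * (Nat.log 2 p + 1) + 1) ^ h ∧
      A₀.card ^ k ≤ 2 * (D + 1) * B.ncard := by
  classical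
  have hne : NeZero p := ⟨hp.ne'⟩
  set V := (im_finite' υ A₀).toFinset with hV
  have hVmem : ∀ x, x ∈ V ↔ x ∈ im υ (A₀ : Set ℤ) := fun x => Set.Finite.mem_toFinset _
  have hVc : V.card = (im υ (A₀ : Set ℤ)).ncard := (Set.ncard_eq_toFinset_card _ _).symm
  set F := (im_finite' φ A₀).toFinset with hF
  have hFmem : ∀ x, x ∈ F ↔ x ∈ im φ (A₀ : Set ℤ) := fun x => Set.Finite.mem_toFinset _
  have hFc : F.card = (im φ (A₀ : Set ℤ)).ncard := (Set.ncard_eq_toFinset_card _ _).symm
  set X : Finset (Fin k → ℤ) := Fintype.piFinset fun _ => V with hX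
  have hXc : X.card = (im υ (A₀ : Set ℤ)).ncard ^ k := by
    rw [hX, Fintype.card_piFinset, ← hVc]
    simp
  set Y : Finset (Fin k → ℤ) := Fintype.piFinset fun _ => A₀ with hY
  have hYc : Y.card = A₀.card ^ k := by
    rw [hY, Fintype.card_piFinset]
    simp
  have hA0' : 0 < A₀.card := Finset.card_pos.mpr hA0
  obtain ⟨c, hc, hc'⟩ := exists_hom2 (p := p) (D := D) X Y (by
    intro x hx y hy j
    exact hsep _ ((hVmem _).mp (Fintype.mem_piFinset.mp hx j)) _
      ((hVmem _).mp (Fintype.mem_piFinset.mp hy j))) (by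
    intro x hx y hy j
    exact hsep' _ (Fintype.mem_piFinset.mp hx j) _ (Fintype.mem_piFinset.mp hy j))
    (by rw [hXc]; exact hpk) (by rw [hYc]; exact hak) (by rw [hYc]; positivity)
  obtain ⟨T, hT, hcov⟩ := cover (C := 2 * D + 1) (X.image (hom c)) (by
    have : 2 * D + 1 + 1 = 2 * (D + 1) := by ring
    rw [this]
    exact hc)
  have hυ0 : ((υ i₀ : ℤ) : ZMod p) * ((υ i₀ : ℤ) : ZMod p)⁻¹ = 1 :=
    ZMod.mul_inv_of_unit _ hυp
  set T' : Finset (ZMod p) := insert 0 (T.image fun t => (υ i₀ : ZMod p)⁻¹ * t) with hT'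
  have hT'c : T'.card ≤ (2 * D + 2) * (Nat.log 2 p + 1) + 1 := by
    refine (Finset.card_insert_le _ _).trans ?_
    have := Finset.card_image_le (s := T) (f := fun t => (υ i₀ : ZMod p)⁻¹ * t)
    have h2 : 2 * D + 1 + 1 = 2 * D + 2 := rfl
    rw [h2] at hT
    omega
  refine ⟨{b | ∃ x : Fin k → ℤ, (∀ j, x j ∈ A₀) ∧ ∃ t ∈ T', b = hom c x + t}, ?_, ?_, ?_⟩
  · refine Set.eq_univ_of_forall fun z => ?_
    obtain ⟨t, ht, hz⟩ := hcov z
    obtain ⟨x, hx, hxz⟩ := Finset.mem_image.mp hz
    have hx' : ∀ j, ∃ a : Fin g → ℤ, (∀ i, a i ∈ (A₀ : Set ℤ)) ∧ x j = ∑ i, υ i • a i :=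
      fun j => (hVmem _).mp (Fintype.mem_piFinset.mp hx j)
    choose a ha hxa using hx'
    refine ⟨fun i => hom c (fun j => a j i) +
      if i = i₀ then (υ i₀ : ZMod p)⁻¹ * t else 0, ?_, ?_⟩
    · intro i
      refine ⟨fun j => a j i, fun j => Finset.mem_coe.mp (ha j i), _, ?_, rfl⟩
      rw [hT']
      by_cases hi : i = i₀
      · rw [if_pos hi]
        exact Finset.mem_insert_of_mem (Finset.mem_image_of_mem _ ht)
      · rw [if_neg hi]
        exact Finset.mem_insert_self _ _
    · have h1 : hom c x = ∑ i, υ i • hom c (fun j => a j i) := by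
        rw [← hom_sum c υ fun i j => a j i]
        congr 1
        funext j
        exact hxa j
      simp only [smul_add, Finset.sum_add_distrib]
      rw [← h1, hxz, Finset.sum_eq_single i₀, if_pos rfl, zsmul_eq_mul, ← mul_assoc,
        hυ0, one_mul]
      · ring
      · intro i _ hi
        rw [if_neg hi, smul_zero]
      · intro h
        exact absurd (Finset.mem_univ _) h
  · set P : Finset (ZMod p) := (Fintype.piFinset fun _ : Fin k => F).image (hom c) with hP
    set R : Finset (ZMod p) := (Fintype.piFinset fun _ : Fin h => T').image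
      fun t => ∑ i, φ i • t i with hR
    have hPc : P.card ≤ (im φ (A₀ : Set ℤ)).ncard ^ k := by
      refine Finset.card_image_le.trans ?_
      rw [Fintype.card_piFinset, ← hFc]
      simp
    have hRc : R.card ≤ ((2 * D + 2) * (Nat.log 2 p + 1) + 1) ^ h := by
      refine Finset.card_image_le.trans ?_
      rw [Fintype.card_piFinset]
      simp only [Finset.prod_const, Finset.card_univ, Fintype.card_fin]
      exact Nat.pow_le_pow_left hT'c h
    have hsub : im φ {b | ∃ x : Fin k → ℤ, (∀ j, x j ∈ A₀) ∧ ∃ t ∈ T', b = hom c x + t} ⊆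
        ((P ×ˢ R).image fun q => q.1 + q.2 : Finset (ZMod p)) := by
      rintro u ⟨b, hb, rfl⟩
      choose x hx t ht hbx using hb
      rw [Finset.mem_coe, Finset.mem_image]
      refine ⟨(∑ i, φ i • hom c (x i), ∑ i, φ i • t i), ?_, ?_⟩
      · rw [Finset.mem_product]
        refine ⟨?_, Finset.mem_image_of_mem _ (Fintype.mem_piFinset.mpr ht)⟩
        simp only
        rw [← hom_sum c φ x]
        refine Finset.mem_image_of_mem _ (Fintype.mem_piFinset.mpr fun j => ?_)
        rw [hFmem]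
        exact ⟨fun i => x i j, fun i => Finset.mem_coe.mpr (hx i j), rfl⟩
      · simp only
        rw [← Finset.sum_add_distrib]
        refine Finset.sum_congr rfl fun i _ => ?_
        rw [hbx i, smul_add]
    refine (Set.ncard_le_ncard hsub (Finset.finite_toSet _)).trans ?_
    rw [Set.ncard_coe_finset]
    refine Finset.card_image_le.trans ?_
    rw [Finset.card_product]
    exact Nat.mul_le_mul hPc hRc
  · rw [← hYc]
    refine hc'.trans (Nat.mul_le_mul_left _ ?_)
    rw [← Set.ncard_coe_finset]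
    refine Set.ncard_le_ncard ?_ (Set.toFinite _)
    intro b hb
    rw [Finset.mem_coe, Finset.mem_image] at hb
    obtain ⟨x, hx, rfl⟩ := hb
    refine ⟨x, fun j => Fintype.mem_piFinset.mp hx j, 0, ?_, (add_zero _).symm⟩
    rw [hT']
    exact Finset.mem_insert_self _ _

end Pool.Agent.H82.SZ
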