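import Pool.Agent.H73.HR.Limit

/-!
# The exponent of the largest sets
-/

set_option autoImplicit false

namespace Pool.Agent.H82.SZ

open Finset Pool.Agent.H73.HR

variable {g h : ℕ}

/-- the infimum of `log (|Υ(A)| / |A|) / log (|Υ(A)| / |Φ(A)|)` over the finite sets `A` of
integers with `|Φ(A)| < |Υ(A)|` -/
noncomputable def lam (υ : Fin g → ℤ) (φ : Fin h → ℤ) : ℝ :=
  sInf {r | ∃ A : Finset ℤ, (im φ (A : Set ℤ)).ncard < (im υ (A : Set ℤ)).ncard ∧
    r = Real.log ((im υ (A : Set ℤ)).ncard / A.card) /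
      Real.log ((im υ (A : Set ℤ)).ncard / (im φ (A : Set ℤ)).ncard)}

/-- the elementary inequalities for a set with `|Φ(A)| < |Υ(A)|` -/
theorem sizes {υ : Fin g → ℤ} {φ : Fin h → ℤ} (hg : 0 < g) (hh : 0 < h) (hφ : ∀ i, φ i ≠ 0)
    (A : Finset ℤ) (hA : (im φ (A : Set ℤ)).ncard < (im υ (A : Set ℤ)).ncard) :
    1 ≤ A.card ∧ A.card ≤ (im φ (A : Set ℤ)).ncard := by
  have hne : (A : Set ℤ).Nonempty := by
    refine nonempty_of_im hg (υ := υ) ?_
    rw [← Set.ncard_pos (im_finite' υ A)]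
    omega
  refine ⟨?_, card_le_im hh hφ A⟩
  exact Finset.card_pos.mpr (Finset.coe_nonempty.mp hne)

theorem one_le_ratio {υ : Fin g → ℤ} {φ : Fin h → ℤ} (hg : 0 < g) (hh : 0 < h)
    (hφ : ∀ i, φ i ≠ 0) (A : Finset ℤ)
    (hA : (im φ (A : Set ℤ)).ncard < (im υ (A : Set ℤ)).ncard) :
    0 < Real.log ((im υ (A : Set ℤ)).ncard / (im φ (A : Set ℤ)).ncard) ∧
    Real.log ((im υ (A : Set ℤ)).ncard / (im φ (A : Set ℤ)).ncard) ≤
      Real.log ((im υ (A : Set ℤ)).ncard / A.card) := by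
  obtain ⟨h1, h2⟩ := sizes hg hh hφ A hA
  have h1' : (1 : ℝ) ≤ A.card := by exact_mod_cast h1
  have h2' : (A.card : ℝ) ≤ (im φ (A : Set ℤ)).ncard := by exact_mod_cast h2
  have hA' : ((im φ (A : Set ℤ)).ncard : ℝ) < (im υ (A : Set ℤ)).ncard := by exact_mod_cast hA
  have h3 : (0 : ℝ) < (im φ (A : Set ℤ)).ncard := by linarith
  constructor
  · apply Real.log_pos
    rwa [lt_div_iff₀ h3, one_mul]
  · apply Real.log_le_log
    · exact div_pos (by linarith) h3
    · exact div_le_div_of_nonneg_left (by linarith) (by linarith) h2'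

theorem one_le_of_mem {υ : Fin g → ℤ} {φ : Fin h → ℤ} (hg : 0 < g) (hh : 0 < h)
    (hφ : ∀ i, φ i ≠ 0) {r : ℝ}
    (hr : r ∈ {r | ∃ A : Finset ℤ, (im φ (A : Set ℤ)).ncard < (im υ (A : Set ℤ)).ncard ∧
    r = Real.log ((im υ (A : Set ℤ)).ncard / A.card) /
      Real.log ((im υ (A : Set ℤ)).ncard / (im φ (A : Set ℤ)).ncard)}) : 1 ≤ r := by
  obtain ⟨A, hA, rfl⟩ := hr
  obtain ⟨h1, h2⟩ := one_le_ratio hg hh hφ A hA
  rwa [le_div_iff₀ h1, one_mul]

theorem lam_nonempty {υ : Fin g → ℤ} {φ : Fin h → ℤ} (hh : 0 < h) (hυ : ∀ i, υ i ≠ 0)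
    (h0 : ∃ I : Finset (Fin g), I.Nonempty ∧ ∑ i ∈ I, υ i = 0)
    (hφ : ∀ J : Finset (Fin h), J.Nonempty → ∑ j ∈ J, φ j ≠ 0) :
    {r | ∃ A : Finset ℤ, (im φ (A : Set ℤ)).ncard < (im υ (A : Set ℤ)).ncard ∧
    r = Real.log ((im υ (A : Set ℤ)).ncard / A.card) /
      Real.log ((im υ (A : Set ℤ)).ncard / (im φ (A : Set ℤ)).ncard)}.Nonempty := by
  obtain ⟨I, hI, hI0⟩ := h0
  obtain ⟨A, hA⟩ := exists_small hh hφ
  exact ⟨_, A, lt_of_lt_of_le hA (diffs_le hυ hI hI0 A), rfl⟩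

theorem one_le_lam {υ : Fin g → ℤ} {φ : Fin h → ℤ} (hh : 0 < h) (hυ : ∀ i, υ i ≠ 0)
    (hφ0 : ∀ i, φ i ≠ 0)
    (h0 : ∃ I : Finset (Fin g), I.Nonempty ∧ ∑ i ∈ I, υ i = 0)
    (hφ : ∀ J : Finset (Fin h), J.Nonempty → ∑ j ∈ J, φ j ≠ 0) : 1 ≤ lam υ φ := by
  have hg : 0 < g := by
    obtain ⟨I, ⟨i, _⟩, _⟩ := h0
    exact i.pos
  exact le_csInf (lam_nonempty hh hυ h0 hφ) fun r hr => one_le_of_mem hg hh hφ0 hr

theorem lam_mul_le {υ : Fin g → ℤ} {φ : Fin h → ℤ} (hg : 0 < g) (hh : 0 < h)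
    (hφ : ∀ i, φ i ≠ 0) (A : Finset ℤ)
    (hA : (im φ (A : Set ℤ)).ncard < (im υ (A : Set ℤ)).ncard) :
    lam υ φ * Real.log ((im υ (A : Set ℤ)).ncard / (im φ (A : Set ℤ)).ncard) ≤
      Real.log ((im υ (A : Set ℤ)).ncard / A.card) := by
  have h1 : lam υ φ ≤ Real.log ((im υ (A : Set ℤ)).ncard / A.card) /
      Real.log ((im υ (A : Set ℤ)).ncard / (im φ (A : Set ℤ)).ncard) :=
    csInf_le ⟨1, fun r hr => one_le_of_mem hg hh hφ hr⟩ ⟨A, hA, rfl⟩
  rwa [le_div_iff₀ (one_le_ratio hg hh hφ A hA).1] at h1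

/-- lifting to the integers, with the size of the set -/
theorem exists_lift' {υ : Fin g → ℤ} {φ : Fin h → ℤ} {m : ℕ} (hm : 0 < m) {S : ℕ}
    (hS : ∑ i, |φ i| = S) {A : Set (ZMod m)} (hA : im υ A = Set.univ) :
    ∃ A' : Finset ℤ, A'.card = A.ncard ∧ m ≤ (im υ (A' : Set ℤ)).ncard ∧
      (im φ (A' : Set ℤ)).ncard ≤ (2 * S + 1) * (im φ A).ncard := by
  classical
  have hne : NeZero m := ⟨hm.ne'⟩
  have hm' : (0 : ℤ) < m := by exact_mod_cast hm
  set A' : Finset ℤ := (Finset.Ico (0 : ℤ) m).filter fun n => (n : ZMod m) ∈ A with hA'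
  have hmem : ∀ n : ℤ, n ∈ A' ↔ (0 ≤ n ∧ n < m) ∧ (n : ZMod m) ∈ A := by
    intro n
    rw [hA', Finset.mem_filter, Finset.mem_Ico]
  refine ⟨A', ?_, ?_, ?_⟩
  · have hfin : A.Finite := Set.toFinite _
    rw [Set.ncard_eq_toFinset_card A hfin]
    refine Finset.card_bij (fun n _ => (n : ZMod m)) ?_ ?_ ?_
    · intro n hn
      rw [Set.Finite.mem_toFinset]
      exact ((hmem n).mp hn).2
    · intro n hn n' hn' hnn
      obtain ⟨⟨h1, h2⟩, _⟩ := (hmem n).mp hn
      obtain ⟨⟨h3, h4⟩, _⟩ := (hmem n').mp hn'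
      have h5 := (ZMod.intCast_eq_intCast_iff _ _ m).mp hnn
      have h6 : n % (m : ℤ) = n' % (m : ℤ) := h5
      rwa [Int.emod_eq_of_lt h1 h2, Int.emod_eq_of_lt h3 h4] at h6
    · intro x hx
      rw [Set.Finite.mem_toFinset] at hx
      refine ⟨(x.val : ℤ), ?_, ?_⟩
      · rw [hmem]
        have := ZMod.val_lt x
        refine ⟨⟨by omega, by omega⟩, ?_⟩
        rw [Int.cast_natCast, ZMod.natCast_zmod_val]
        exact hx
      · rw [Int.cast_natCast, ZMod.natCast_zmod_val]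
  · have h1 : (Set.univ : Set (ZMod m)) ⊆ (fun n : ℤ => (n : ZMod m)) '' im υ (A' : Set ℤ) := by
      intro x _
      have hx : x ∈ im υ A := by rw [hA]; trivial
      obtain ⟨a, ha, rfl⟩ := hx
      refine ⟨_, ⟨fun i => ((a i).val : ℤ), ?_, rfl⟩, ?_⟩
      · intro i
        rw [Finset.mem_coe, hmem]
        have := ZMod.val_lt (a i)
        simp only
        refine ⟨⟨by omega, by omega⟩, ?_⟩
        rw [Int.cast_natCast, ZMod.natCast_zmod_val]
        exact ha i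
      · simp only
        push_cast
        refine Finset.sum_congr rfl fun i _ => ?_
        rw [smul_eq_mul, zsmul_eq_mul]
        push_cast
        rw [ZMod.natCast_zmod_val]
    have h2 := (Set.ncard_le_ncard h1 ((im_finite' υ A').image _)).trans
      (Set.ncard_image_le (im_finite' υ A'))
    rw [Set.ncard_univ, Nat.card_zmod] at h2
    exact h2
  · have hfin : (im φ A).Finite := Set.toFinite _
    have h2 : (im φ (A' : Set ℤ)).ncard ≤
        (((hfin.toFinset ×ˢ Finset.Icc (-(S : ℤ)) S : Finset (ZMod m × ℤ)) :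
          Set (ZMod m × ℤ))).ncard := by
      refine Set.ncard_le_ncard_of_injOn (fun n => ((n : ZMod m), n / (m : ℤ))) ?_ ?_
        (Finset.finite_toSet _)
      · rintro n ⟨a, ha, rfl⟩
        have ha' : ∀ i, (0 ≤ a i ∧ a i < m) ∧ (a i : ZMod m) ∈ A := fun i =>
          (hmem _).mp (Finset.mem_coe.mp (ha i))
        rw [Finset.mem_coe, Finset.mem_product]
        refine ⟨?_, ?_⟩
        · rw [Set.Finite.mem_toFinset]
          refine ⟨fun i => (a i : ZMod m), fun i => (ha' i).2, ?_⟩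
          simp only
          push_cast
          refine Finset.sum_congr rfl fun i _ => ?_
          rw [smul_eq_mul, zsmul_eq_mul]
          push_cast
          rfl
        · have hb : |∑ i, φ i • a i| ≤ S * m := by
            refine (Finset.abs_sum_le_sum_abs _ _).trans ?_
            rw [← hS, Finset.sum_mul]
            refine Finset.sum_le_sum fun i _ => ?_
            rw [smul_eq_mul, abs_mul]
            refine mul_le_mul_of_nonneg_left ?_ (abs_nonneg _)
            rw [abs_of_nonneg (ha' i).1.1]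
            exact (ha' i).1.2.le
          have hb' := abs_le.mp hb
          rw [Finset.mem_Icc]
          constructor
          · rw [Int.le_ediv_iff_mul_le hm']
            linarith [hb'.1]
          · have h3 : (∑ i, φ i • a i) / (m : ℤ) < S + 1 := by
              rw [Int.ediv_lt_iff_lt_mul hm']
              nlinarith [hb'.2]
            simp only
            omega
      · intro n _ n' _ hnn
        simp only [Prod.mk.injEq] at hnn
        have h3 := (ZMod.intCast_eq_intCast_iff _ _ m).mp hnn.1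
        have h4 : n % (m : ℤ) = n' % (m : ℤ) := h3
        rw [← Int.emod_add_mul_ediv n m, ← Int.emod_add_mul_ediv n' m, h4, hnn.2]
    rw [Set.ncard_coe_finset, Finset.card_product, Int.card_Icc,
      ← Set.ncard_eq_toFinset_card _ hfin] at h2
    refine h2.trans (le_of_eq ?_)
    rw [mul_comm]
    congr 1
    omega

/-- the upper bound for the size of a set with `(*)` -/
theorem size_le {υ : Fin g → ℤ} {φ : Fin h → ℤ} (hh : 0 < h) (hυ : ∀ i, υ i ≠ 0)
    (hφ0 : ∀ i, φ i ≠ 0)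
    (h0 : ∃ I : Finset (Fin g), I.Nonempty ∧ ∑ i ∈ I, υ i = 0)
    (hφ : ∀ J : Finset (Fin h), J.Nonempty → ∑ j ∈ J, φ j ≠ 0) {S : ℕ}
    (hS : ∑ i, |φ i| = S) {ε : ℝ} (hε : 0 < ε) {m : ℕ} (hm : 0 < m) {A : Set (ZMod m)}
    (hA : im υ A = Set.univ) (hc : ((im φ A).ncard : ℝ) < ε * m) :
    (A.ncard : ℝ) ≤ ((2 * S + 1) * ε) ^ lam υ φ * m := by
  have hne : NeZero m := ⟨hm.ne'⟩
  have hg : 0 < g := by
    obtain ⟨I, ⟨i, _⟩, _⟩ := h0
    exact i.pos
  have hmR : (0 : ℝ) < m := by exact_mod_cast hm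
  have hlam := one_le_lam hh hυ hφ0 h0 hφ
  obtain ⟨A', hc1, hc2, hc3⟩ := exists_lift' (φ := φ) hm hS hA
  have hAm : (A.ncard : ℝ) ≤ m := by
    have h1 : A.ncard ≤ (Set.univ : Set (ZMod m)).ncard :=
      Set.ncard_le_ncard (Set.subset_univ _) (Set.toFinite _)
    rw [Set.ncard_univ, Nat.card_zmod] at h1
    exact_mod_cast h1
  set η : ℝ := (2 * S + 1) * ε with hη
  have hη0 : 0 < η := by positivity
  by_cases hη1 : 1 ≤ η
  · calc (A.ncard : ℝ) ≤ 1 * m := by rw [one_mul]; exact hAm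
      _ ≤ η ^ lam υ φ * m := by
        refine mul_le_mul_of_nonneg_right ?_ hmR.le
        exact Real.one_le_rpow hη1 (by linarith)
  · push Not at hη1
    have hf : ((im φ (A' : Set ℤ)).ncard : ℝ) < η * m := by
      have h1 : ((im φ (A' : Set ℤ)).ncard : ℝ) ≤ (2 * S + 1) * ((im φ A).ncard : ℝ) := by
        exact_mod_cast hc3
      have h2 : (2 * (S : ℝ) + 1) * ((im φ A).ncard : ℝ) < (2 * S + 1) * (ε * m) :=
        mul_lt_mul_of_pos_left hc (by positivity)
      rw [hη]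
      linarith
    have hu : (m : ℝ) ≤ (im υ (A' : Set ℤ)).ncard := by exact_mod_cast hc2
    have hlt : (im φ (A' : Set ℤ)).ncard < (im υ (A' : Set ℤ)).ncard := by
      have : ((im φ (A' : Set ℤ)).ncard : ℝ) < (im υ (A' : Set ℤ)).ncard := by
        nlinarith
      exact_mod_cast this
    have h1 := lam_mul_le hg hh hφ0 A' hlt
    obtain ⟨h2, h3⟩ := sizes hg hh hφ0 A' hlt
    rw [hc1] at h1 h2
    have ha : (0 : ℝ) < A.ncard := by exact_mod_cast h2
    have hf0 : (0 : ℝ) < (im φ (A' : Set ℤ)).ncard := by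
      have : 0 < (im φ (A' : Set ℤ)).ncard := by omega
      exact_mod_cast this
    have hu0 : (0 : ℝ) < (im υ (A' : Set ℤ)).ncard := by linarith
    rw [Real.log_div hu0.ne' hf0.ne', Real.log_div hu0.ne' ha.ne'] at h1
    -- log a ≤ (1-λ) log u + λ log f ≤ (1-λ) log m + λ log (η m)
    have h4 : Real.log m ≤ Real.log (im υ (A' : Set ℤ)).ncard := Real.log_le_log hmR hu
    have h5 : Real.log (im φ (A' : Set ℤ)).ncard ≤ Real.log η + Real.log m := by
      rw [← Real.log_mul hη0.ne' hmR.ne']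
      exact Real.log_le_log hf0 hf.le
    have h6 : Real.log A.ncard ≤ lam υ φ * Real.log η + Real.log m := by
      nlinarith
    have h7 : Real.log (η ^ lam υ φ * m) = lam υ φ * Real.log η + Real.log m := by
      rw [Real.log_mul (Real.rpow_pos_of_pos hη0 _).ne' hmR.ne', Real.log_rpow hη0]
    rw [← h7] at h6
    exact (Real.log_le_log_iff ha (mul_pos (Real.rpow_pos_of_pos hη0 _) hmR)).mp h6

end Pool.Agent.H82.SZ
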