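import Pool.Agent.H82.SZ.Lam

/-!
# The exponent for sums and differences
-/

set_option autoImplicit false

namespace Pool.Agent.H82.SZ

open Finset Pool.Agent.H73.HR

/-- the integer with the digits `z` in base `R` -/
def code {D : ℕ} (R : ℤ) (z : Fin D → ℤ) : ℤ := ∑ i, z i * R ^ (i : ℕ)

theorem code_zero {R L : ℤ} (hR : L < R) : ∀ {D : ℕ} {z : Fin D → ℤ}, (∀ i, |z i| ≤ L) →
    code R z = 0 → z = 0 := by
  intro D
  induction D with
  | zero =>
    intro z _ _
    exact Subsingleton.elim _ _
  | succ D ih =>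
    intro z hz h
    have hR0 : 0 < R := by
      have := (abs_nonneg _).trans (hz 0)
      linarith
    rw [code, Fin.sum_univ_succ] at h
    have h1 : ∑ i : Fin D, z i.succ * R ^ ((i.succ : Fin (D + 1)) : ℕ) =
        R * code R fun i : Fin D => z i.succ := by
      rw [code, Finset.mul_sum]
      refine Finset.sum_congr rfl fun i _ => ?_
      rw [Fin.val_succ, pow_succ]
      ring
    rw [h1] at h
    simp only [Fin.val_zero, pow_zero, mul_one] at h
    have h2 : z 0 = 0 := by
      have h3 : R ∣ z 0 := ⟨-(code R fun i : Fin D => z i.succ), by linarith⟩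
      exact Int.eq_zero_of_abs_lt_dvd h3 ((hz 0).trans_lt hR)
    rw [h2, zero_add] at h
    have h3 := ih (fun i => hz i.succ) ((mul_eq_zero.mp h).resolve_left hR0.ne')
    funext i
    refine Fin.cases h2 (fun j => ?_) i
    exact congrFun h3 j

theorem code_inj {R L : ℤ} (hR : 2 * L < R) {D : ℕ} {z z' : Fin D → ℤ} (hz : ∀ i, |z i| ≤ L)
    (hz' : ∀ i, |z' i| ≤ L) (h : code R z = code R z') : z = z' := by
  have h1 : code R (fun i => z i - z' i) = 0 := by
    have : code R (fun i => z i - z' i) = code R z - code R z' := by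
      simp only [code, sub_mul, Finset.sum_sub_distrib]
    rw [this, h, sub_self]
  have h2 := code_zero (L := 2 * L) hR (fun i => by
    refine (abs_sub _ _).trans ?_
    linarith [hz i, hz' i]) h1
  funext i
  have := congrFun h2 i
  simp only [Pi.zero_apply] at this
  linarith

/-- weights on `s` and one more point, with total weight `L` -/
noncomputable def W {D : ℕ} (s : Finset (Fin D)) (L : ℕ) : Finset (Option (Fin D) →₀ ℕ) :=
  (Finset.insertNone s).finsuppAntidiag L

theorem mem_W {D : ℕ} {s : Finset (Fin D)} {L : ℕ} {w : Option (Fin D) →₀ ℕ} :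
    w ∈ W s L ↔ w none + ∑ i ∈ s, w (some i) = L ∧ ∀ i, i ∉ s → w (some i) = 0 := by
  rw [W, Finset.mem_finsuppAntidiag]
  have h1 : (Finset.insertNone s).sum w = w none + ∑ i ∈ s, w (some i) := by
    simp [Finset.insertNone]
  rw [h1]
  refine and_congr_right fun _ => ?_
  constructor
  · intro h i hi
    by_contra hne
    have := h (Finsupp.mem_support_iff.mpr hne)
    exact hi (Finset.some_mem_insertNone.mp this)
  · intro h o ho
    cases o with
    | none => exact Finset.none_mem_insertNone
    | some i =>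
      rw [Finset.some_mem_insertNone]
      by_contra hi
      exact (Finsupp.mem_support_iff.mp ho) (h i hi)

theorem card_W {D : ℕ} (s : Finset (Fin D)) (L : ℕ) : (W s L).card = (L + s.card).choose s.card := by
  rw [W, Finset.card_finsuppAntidiag_nat_eq_choose, Finset.card_insertNone]
  have h1 : s.card + 1 + L - 1 = L + s.card := by omega
  rw [h1]
  exact Nat.choose_symm_add

/-- the simplex, as a set of integers -/
noncomputable def splx (D L : ℕ) : Finset ℤ :=
  (W (Finset.univ : Finset (Fin D)) L).image fun w =>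
    code (2 * L + 1) fun i => (w (some i) : ℤ)

theorem mem_splx {D L : ℕ} {p : Fin D → ℕ} (hp : ∑ i, p i ≤ L) :
    code (2 * L + 1) (fun i => (p i : ℤ)) ∈ splx D L := by
  rw [splx, Finset.mem_image]
  refine ⟨Finsupp.equivFunOnFinite.symm fun o => o.elim (L - ∑ i, p i) p, ?_, ?_⟩
  · rw [mem_W]
    constructor
    · simp only [Finsupp.equivFunOnFinite_symm_apply_apply, Option.elim_none, Option.elim_some]
      omega
    · intro i hi
      exact absurd (Finset.mem_univ i) hi
  · simp [Finsupp.equivFunOnFinite_symm_apply_apply]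

theorem card_splx (D L : ℕ) : (splx D L).card = (L + D).choose D := by
  rw [splx, Finset.card_image_of_injOn, card_W, Finset.card_univ, Fintype.card_fin]
  intro w hw w' hw' h
  simp only at h
  have key : ∀ w ∈ W (Finset.univ : Finset (Fin D)) L, ∀ i : Fin D, |((w (some i) : ℕ) : ℤ)| ≤ L := by
    intro w hw i
    obtain ⟨h1, _⟩ := mem_W.mp hw
    have h2 : w (some i) ≤ ∑ i, w (some i) :=
      Finset.single_le_sum (f := fun i => w (some i)) (fun _ _ => Nat.zero_le _)
        (Finset.mem_univ i)
    rw [Nat.abs_cast]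
    exact_mod_cast (by omega : w (some i) ≤ L)
  have h1 := code_inj (L := (L : ℤ)) (by linarith) (key w hw) (key w' hw') h
  have h2 : ∀ i, w (some i) = w' (some i) := fun i => by exact_mod_cast congrFun h1 i
  obtain ⟨h3, _⟩ := mem_W.mp hw
  obtain ⟨h4, _⟩ := mem_W.mp hw'
  ext o
  cases o with
  | none =>
    have h5 : ∑ i, w (some i) = ∑ i, w' (some i) := Finset.sum_congr rfl fun i _ => h2 i
    omega
  | some i => exact h2 i

theorem mem_im_add {A : Finset ℤ} {x : ℤ} :
    x ∈ im ![(1 : ℤ), 1] (A : Set ℤ) ↔ ∃ a ∈ A, ∃ b ∈ A, x = a + b := by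
  constructor
  · rintro ⟨a, ha, rfl⟩
    refine ⟨a 0, ha 0, a 1, ha 1, ?_⟩
    simp [Fin.sum_univ_two]
  · rintro ⟨a, ha, b, hb, rfl⟩
    refine ⟨![a, b], ?_, ?_⟩
    · intro i
      fin_cases i
      · exact ha
      · exact hb
    · simp [Fin.sum_univ_two]

theorem mem_im_sub {A : Finset ℤ} {x : ℤ} :
    x ∈ im ![(1 : ℤ), -1] (A : Set ℤ) ↔ ∃ a ∈ A, ∃ b ∈ A, x = a - b := by
  constructor
  · rintro ⟨a, ha, rfl⟩
    refine ⟨a 0, ha 0, a 1, ha 1, ?_⟩
    simp [Fin.sum_univ_two]
    ring
  · rintro ⟨a, ha, b, hb, rfl⟩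
    refine ⟨![a, b], ?_, ?_⟩
    · intro i
      fin_cases i
      · exact ha
      · exact hb
    · simp [Fin.sum_univ_two]
      ring

theorem card_add_le (D L : ℕ) :
    (im ![(1 : ℤ), 1] (splx D L : Set ℤ)).ncard ≤ (2 * L + D).choose D := by
  classical
  have h1 : im ![(1 : ℤ), 1] (splx D L : Set ℤ) ⊆
      ((W (Finset.univ : Finset (Fin D)) (2 * L)).image fun w =>
        code (2 * L + 1) fun i => (w (some i) : ℤ) : Finset ℤ) := by
    intro x hx
    obtain ⟨a, ha, b, hb, rfl⟩ := mem_im_add.mp hx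
    rw [splx, Finset.mem_image] at ha hb
    obtain ⟨w, hw, rfl⟩ := ha
    obtain ⟨w', hw', rfl⟩ := hb
    obtain ⟨h3, _⟩ := mem_W.mp hw
    obtain ⟨h4, _⟩ := mem_W.mp hw'
    rw [Finset.mem_coe, Finset.mem_image]
    refine ⟨w + w', ?_, ?_⟩
    · rw [mem_W]
      constructor
      · simp only [Finsupp.add_apply, Finset.sum_add_distrib]
        omega
      · intro i hi
        exact absurd (Finset.mem_univ i) hi
    · simp only [code, Finsupp.add_apply, Nat.cast_add, add_mul, Finset.sum_add_distrib]
  refine (Set.ncard_le_ncard h1 (Finset.finite_toSet _)).trans ?_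
  rw [Set.ncard_coe_finset]
  refine Finset.card_image_le.trans (le_of_eq ?_)
  rw [card_W, Finset.card_univ, Fintype.card_fin]

/-- many differences -/
theorem le_card_sub (k L : ℕ) (hkL : k ≤ L) :
    (2 * k).choose k * (L.choose k * (L + k).choose k) ≤
      (im ![(1 : ℤ), -1] (splx (2 * k) L : Set ℤ)).ncard := by
  classical
  set I : Finset (Σ _ : Finset (Fin (2 * k)),
      (Option (Fin (2 * k)) →₀ ℕ) × (Option (Fin (2 * k)) →₀ ℕ)) :=
    (Finset.powersetCard k (Finset.univ : Finset (Fin (2 * k)))).sigma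
      fun K => W K (L - k) ×ˢ W Kᶜ L with hI
  have hIc : I.card = (2 * k).choose k * (L.choose k * (L + k).choose k) := by
    rw [hI, Finset.card_sigma]
    have h1 : ∀ K ∈ Finset.powersetCard k (Finset.univ : Finset (Fin (2 * k))),
        (W K (L - k) ×ˢ W Kᶜ L).card = L.choose k * (L + k).choose k := by
      intro K hK
      have hKc := (Finset.mem_powersetCard.mp hK).2
      rw [Finset.card_product, card_W, card_W, Finset.card_compl, Fintype.card_fin, hKc]
      have h2 : L - k + k = L := by omega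
      have h3 : 2 * k - k = k := by omega
      rw [h2, h3]
    rw [Finset.sum_congr rfl h1, Finset.sum_const, Finset.card_powersetCard, Finset.card_univ,
      Fintype.card_fin, smul_eq_mul]
  rw [← hIc, ← Set.ncard_coe_finset]
  -- the difference vector
  set zz : (Σ _ : Finset (Fin (2 * k)),
      (Option (Fin (2 * k)) →₀ ℕ) × (Option (Fin (2 * k)) →₀ ℕ)) → Fin (2 * k) → ℤ :=
    fun q i => if i ∈ q.1 then (q.2.1 (some i) : ℤ) + 1 else -(q.2.2 (some i) : ℤ) with hzz
  have hmem : ∀ q ∈ I, (q.1.card = k) ∧ q.2.1 ∈ W q.1 (L - k) ∧ q.2.2 ∈ W (q.1)ᶜ L := by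
    intro q hq
    rw [hI, Finset.mem_sigma, Finset.mem_product, Finset.mem_powersetCard] at hq
    exact ⟨hq.1.2, hq.2.1, hq.2.2⟩
  have hbound : ∀ q ∈ I, ∀ i, |zz q i| ≤ L := by
    intro q hq i
    obtain ⟨hK, hx, hy⟩ := hmem q hq
    obtain ⟨hx1, _⟩ := mem_W.mp hx
    obtain ⟨hy1, _⟩ := mem_W.mp hy
    simp only [hzz]
    split_ifs with hi
    · have h1 : q.2.1 (some i) ≤ ∑ i ∈ q.1, q.2.1 (some i) :=
        Finset.single_le_sum (f := fun i => q.2.1 (some i)) (fun _ _ => Nat.zero_le _) hi
      have h2 : 1 ≤ k := by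
        rw [← hK]
        exact Finset.card_pos.mpr ⟨i, hi⟩
      rw [abs_of_nonneg (by positivity)]
      exact_mod_cast (by omega : q.2.1 (some i) + 1 ≤ L)
    · have h1 : q.2.2 (some i) ≤ ∑ i ∈ (q.1)ᶜ, q.2.2 (some i) :=
        Finset.single_le_sum (f := fun i => q.2.2 (some i)) (fun _ _ => Nat.zero_le _)
          (Finset.mem_compl.mpr hi)
      rw [abs_neg, Nat.abs_cast]
      exact_mod_cast (by omega : q.2.2 (some i) ≤ L)
  refine Set.ncard_le_ncard_of_injOn (fun q => code (2 * L + 1) (zz q)) ?_ ?_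
    (im_finite' _ _)
  · intro q hq
    obtain ⟨hK, hx, hy⟩ := hmem q (Finset.mem_coe.mp hq)
    obtain ⟨hx1, hx2⟩ := mem_W.mp hx
    obtain ⟨hy1, hy2⟩ := mem_W.mp hy
    rw [mem_im_sub]
    refine ⟨_, mem_splx (p := fun i => if i ∈ q.1 then q.2.1 (some i) + 1 else 0) ?_,
      _, mem_splx (p := fun i => if i ∈ q.1 then 0 else q.2.2 (some i)) ?_, ?_⟩
    · rw [Finset.sum_ite_mem, Finset.univ_inter, Finset.sum_add_distrib, Finset.sum_const, hK,
        smul_eq_mul, mul_one]
      omega
    · have h1 : ∑ i, (if i ∈ q.1 then 0 else q.2.2 (some i)) =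
          ∑ i ∈ (q.1)ᶜ, q.2.2 (some i) := by
        rw [← Finset.sum_filter_add_sum_filter_not Finset.univ (fun i => i ∈ q.1)]
        rw [Finset.sum_eq_zero, zero_add]
        · refine Finset.sum_congr ?_ ?_
          · ext i
            simp
          · intro i hi
            rw [if_neg (Finset.mem_compl.mp hi)]
        · intro i hi
          rw [if_pos (Finset.mem_filter.mp hi).2]
      rw [h1]
      omega
    · simp only [code, ← Finset.sum_sub_distrib, ← sub_mul, hzz]
      refine Finset.sum_congr rfl fun i _ => ?_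
      split_ifs <;> push_cast <;> ring
  · intro q hq q' hq' h
    have hq := Finset.mem_coe.mp hq
    have hq' := Finset.mem_coe.mp hq'
    have h1 := code_inj (L := (L : ℤ)) (by linarith) (hbound q hq) (hbound q' hq') h
    obtain ⟨hK, hx, hy⟩ := hmem q hq
    obtain ⟨hK', hx', hy'⟩ := hmem q' hq'
    obtain ⟨K, x, y⟩ := q
    obtain ⟨K', x', y'⟩ := q'
    simp only at hx hy hx' hy' hK hK'
    have hpos : ∀ i, i ∈ K ↔ i ∈ K' := by
      intro i
      have h2 := congrFun h1 i
      simp only [hzz] at h2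
      constructor
      · intro hi
        by_contra hi'
        rw [if_pos hi, if_neg hi'] at h2
        omega
      · intro hi
        by_contra hi'
        rw [if_neg hi', if_pos hi] at h2
        omega
    have hKK : K = K' := Finset.ext hpos
    subst hKK
    obtain ⟨hx1, hx2⟩ := mem_W.mp hx
    obtain ⟨hy1, hy2⟩ := mem_W.mp hy
    obtain ⟨hx1', hx2'⟩ := mem_W.mp hx'
    obtain ⟨hy1', hy2'⟩ := mem_W.mp hy'
    have hxx : ∀ i, x (some i) = x' (some i) := by
      intro i
      by_cases hi : i ∈ K
      · have h2 := congrFun h1 i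
        simp only [hzz] at h2
        rw [if_pos hi, if_pos hi] at h2
        omega
      · rw [hx2 i hi, hx2' i hi]
    have hyy : ∀ i, y (some i) = y' (some i) := by
      intro i
      by_cases hi : i ∈ K
      · have hi' : i ∉ Kᶜ := fun h => (Finset.mem_compl.mp h) hi
        rw [hy2 i hi', hy2' i hi']
      · have h2 := congrFun h1 i
        simp only [hzz] at h2
        rw [if_neg hi, if_neg hi] at h2
        omega
    have hx3 : x = x' := by
      ext o
      cases o with
      | none =>
        have h5 : ∑ i ∈ K, x (some i) = ∑ i ∈ K, x' (some i) :=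
          Finset.sum_congr rfl fun i _ => hxx i
        omega
      | some i => exact hxx i
    have hy3 : y = y' := by
      ext o
      cases o with
      | none =>
        have h5 : ∑ i ∈ Kᶜ, y (some i) = ∑ i ∈ Kᶜ, y' (some i) :=
          Finset.sum_congr rfl fun i _ => hyy i
        omega
      | some i => exact hyy i
    rw [hx3, hy3]

end Pool.Agent.H82.SZ
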